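import Pool.Agent.Lib.MP_562b47_mp.BG.Gad

/-!
MP_562b47, bridge from the gadget to the worlds: complete blocks are disjoint.

`pos : ι → ℤ × ℤ` are the coordinates of the sites; the block of class `N` centred at the site `s`
has radius `m = b N` and consists of the sites `x` with `rel (pos s) (pos x) ∈ bq m` (the centre has
relative coordinates `(1, 1)`).  There is a block of every class centred at every site.  Every class
has five port windows: one for each corner and one for the other port sites (helper36).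
-/

open Finset

namespace Pool.Agent.Lib.MP_562b47_mp.BR

open Pool.Agent.Lib.MP_562b47_mp.BG

/-- coordinates relative to the block with centre `s` -/
def rel (s x : ℤ × ℤ) : ℤ × ℤ := (x.1 - s.1 + 1, x.2 - s.2 + 1)

/-- the block `|x|_∞ ≤ m` -/
noncomputable def bq (m : ℤ) : Finset (ℤ × ℤ) := Icc (-m) m ×ˢ Icc (-m) m

/-- the type of a port site -/
def ty (m : ℤ) (x : ℤ × ℤ) : ℕ :=
  if x = (m, m) then 1 else if x = (m, -m) then 2 else if x = (-m, m) then 3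
    else if x = (-m, -m) then 4 else 0

theorem ty_le (m : ℤ) (x : ℤ × ℤ) : ty m x ≤ 4 := by
  unfold ty; split_ifs <;> omega

theorem ty_eq {m : ℤ} {x x' : ℤ × ℤ} (hx : (x.1 = m ∨ x.1 = -m) ∧ (x.2 = m ∨ x.2 = -m))
    (h : ty m x = ty m x') : x = x' := by
  have hne : ty m x ≠ 0 := by
    obtain ⟨x1, x2⟩ := x
    simp only at hx
    unfold ty
    rcases hx with ⟨rfl | rfl, rfl | rfl⟩ <;> split_ifs <;> simp_all
  unfold ty at h hne
  split_ifs at h hne <;> first | omega | simp_all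

theorem mem_bq {m : ℤ} {x : ℤ × ℤ} : x ∈ bq m ↔ (-m ≤ x.1 ∧ x.1 ≤ m) ∧ (-m ≤ x.2 ∧ x.2 ≤ m) := by
  simp [bq]

theorem mem_qi {m : ℤ} {x : ℤ × ℤ} :
    x ∈ qi m ↔ (-(m - 1) ≤ x.1 ∧ x.1 ≤ m - 1) ∧ (-(m - 1) ≤ x.2 ∧ x.2 ≤ m - 1) := by
  simp [qi]

theorem mem_prt {m : ℤ} {x : ℤ × ℤ} : x ∈ prt m ↔ x ∈ bq m ∧ x ∉ qi m := by
  simp [prt, bq]

theorem mem_inn {m : ℤ} {x : ℤ × ℤ} : x ∈ inn m ↔ x ≠ (1, 1) ∧ x ∈ qi m := by
  simp [inn]

theorem bq_cases {m : ℤ} {x : ℤ × ℤ} (h : x ∈ bq m) : x ∈ prt m ∨ x = (1, 1) ∨ x ∈ inn m := by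
  by_cases h1 : x ∈ qi m
  · by_cases h2 : x = (1, 1)
    · exact Or.inr (Or.inl h2)
    · exact Or.inr (Or.inr (mem_inn.mpr ⟨h2, h1⟩))
  · exact Or.inl (mem_prt.mpr ⟨h, h1⟩)

/-- an endpoint of the smaller interval lies in the larger one -/
theorem endpoint {m m' o o' x : ℤ} (hmm : m ≤ m') (h1 : -m ≤ x - o) (h2 : x - o ≤ m)
    (h3 : -m' ≤ x - o') (h4 : x - o' ≤ m') :
    ∃ y, (y - o = m ∨ y - o = -m) ∧ -m' ≤ y - o' ∧ y - o' ≤ m' := by
  rcases le_total o o' with h | h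
  · exact ⟨o + m, Or.inl (by ring), by omega, by omega⟩
  · exact ⟨o - m, Or.inr (by ring), by omega, by omega⟩

/-- the key step: of two overlapping blocks, a port site of the smaller one is an inner site of the
larger one, or a corner of the smaller one is a port site of the larger one -/
theorem corner {m m' : ℤ} (hm : 3 ≤ m) (hmm : m ≤ m') {s s' x : ℤ × ℤ} (hx : rel s x ∈ bq m)
    (hx' : rel s' x ∈ bq m') :
    ∃ y, rel s y ∈ prt m ∧ (rel s' y ∈ inn m' ∨ (rel s' y ∈ prt m' ∧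
      ((rel s y).1 = m ∨ (rel s y).1 = -m) ∧ ((rel s y).2 = m ∨ (rel s y).2 = -m))) := by
  obtain ⟨⟨a1, a2⟩, a3, a4⟩ := mem_bq.mp hx
  obtain ⟨⟨b1, b2⟩, b3, b4⟩ := mem_bq.mp hx'
  simp only [rel] at a1 a2 a3 a4 b1 b2 b3 b4
  obtain ⟨y1, h1, h2, h3⟩ := endpoint (m := m) (m' := m') (o := s.1 - 1) (o' := s'.1 - 1)
    (x := x.1) hmm (by omega) (by omega) (by omega) (by omega)
  obtain ⟨y2, g1, g2, g3⟩ := endpoint (m := m) (m' := m') (o := s.2 - 1) (o' := s'.2 - 1)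
    (x := x.2) hmm (by omega) (by omega) (by omega) (by omega)
  have hprt : ∀ y : ℤ × ℤ, y.1 = y1 → -m ≤ y.2 - s.2 + 1 → y.2 - s.2 + 1 ≤ m → rel s y ∈ prt m := by
    intro y hy hy1 hy2
    rw [mem_prt, mem_bq, mem_qi]
    simp only [rel]
    omega
  have hbq : rel s' (y1, y2) ∈ bq m' := by
    rw [mem_bq]; simp only [rel]; omega
  rcases bq_cases hbq with h | h | h
  · refine ⟨(y1, y2), hprt _ rfl (by simp only; omega) (by simp only; omega), Or.inr ⟨h, ?_, ?_⟩⟩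
    · simp only [rel]; omega
    · simp only [rel]; omega
  · have e1 : y1 - s'.1 + 1 = 1 := congrArg Prod.fst h
    have e2 : y2 - s'.2 + 1 = 1 := congrArg Prod.snd h
    rcases g1 with g1 | g1
    · refine ⟨(y1, y2 - 1), hprt _ rfl (by simp only; omega) (by simp only; omega), Or.inl ?_⟩
      rw [mem_inn, mem_qi]
      simp only [rel, ne_eq, Prod.mk.injEq, not_and]
      omega
    · refine ⟨(y1, y2 + 1), hprt _ rfl (by simp only; omega) (by simp only; omega), Or.inl ?_⟩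
      rw [mem_inn, mem_qi]
      simp only [rel, ne_eq, Prod.mk.injEq, not_and]
      omega
  · exact ⟨(y1, y2), hprt _ rfl (by simp only; omega) (by simp only; omega), Or.inl h⟩

theorem rel_inj {s s' y : ℤ × ℤ} (h : rel s y = rel s' y) : s = s' := by
  have e1 : y.1 - s.1 + 1 = y.1 - s'.1 + 1 := congrArg Prod.fst h
  have e2 : y.2 - s.2 + 1 = y.2 - s'.2 + 1 := congrArg Prod.snd h
  exact Prod.ext (by omega) (by omega)

/-- complete blocks are disjoint -/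
theorem disj {ι : Type*} (pos : ι → ℤ × ℤ) {b : ℤ} (hb : 3 ≤ b) {A : Set ℝ}
    {J : ℕ → ℕ → Set ℝ}
    (hA : ∀ N t : ℕ, 1 ≤ N → t ≤ 4 → Disjoint A (J N t))
    (hJ : ∀ N N' t t' : ℕ, 1 ≤ N → 1 ≤ N' → t ≤ 4 → t' ≤ 4 → (N ≠ N' ∨ t ≠ t') →
      Disjoint (J N t) (J N' t'))
    (V : ι → ℝ) {N N' : ℕ} (hN : 1 ≤ N) (hN' : 1 ≤ N') {s s' : ι}
    (hr : ∀ x, rel (pos s) x ∈ bq (b * N) → x ∈ Set.range pos)
    (hr' : ∀ x, rel (pos s') x ∈ bq (b * N') → x ∈ Set.range pos)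
    (h1 : ∀ x, rel (pos s) (pos x) ∈ prt (b * N) → V x ∈ J N (ty (b * N) (rel (pos s) (pos x))))
    (h2 : ∀ x, rel (pos s) (pos x) ∈ inn (b * N) → V x ∈ A)
    (h1' : ∀ x, rel (pos s') (pos x) ∈ prt (b * N') →
      V x ∈ J N' (ty (b * N') (rel (pos s') (pos x))))
    (h2' : ∀ x, rel (pos s') (pos x) ∈ inn (b * N') → V x ∈ A)
    {x : ℤ × ℤ} (hx : rel (pos s) x ∈ bq (b * N)) (hx' : rel (pos s') x ∈ bq (b * N')) :
    N = N' ∧ pos s = pos s' := by
  have key : ∀ {N N' : ℕ} (_ : 1 ≤ N) (_ : 1 ≤ N') {s s' : ι}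
      (_ : ∀ x, rel (pos s) x ∈ bq (b * N) → x ∈ Set.range pos)
      (_ : ∀ x, rel (pos s) (pos x) ∈ prt (b * N) → V x ∈ J N (ty (b * N) (rel (pos s) (pos x))))
      (_ : ∀ x, rel (pos s') (pos x) ∈ prt (b * N') →
        V x ∈ J N' (ty (b * N') (rel (pos s') (pos x))))
      (_ : ∀ x, rel (pos s') (pos x) ∈ inn (b * N') → V x ∈ A)
      {x : ℤ × ℤ} (_ : rel (pos s) x ∈ bq (b * N)) (_ : rel (pos s') x ∈ bq (b * N')),
      N ≤ N' → N = N' ∧ pos s = pos s' := by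
    intro N N' hN hN' s s' hr h1 h1' h2' x hx hx' hNN
    have hm : (3 : ℤ) ≤ b * N := by
      have : (1 : ℤ) ≤ N := by exact_mod_cast hN
      nlinarith
    have hmm : b * N ≤ b * (N' : ℤ) := by
      have : (N : ℤ) ≤ N' := by exact_mod_cast hNN
      nlinarith
    obtain ⟨y, hy1, hy2⟩ := corner hm hmm hx hx'
    obtain ⟨i, rfl⟩ := hr y (mem_prt.mp hy1).1
    have hv := h1 i hy1
    rcases hy2 with hy2 | ⟨hy2, hy3⟩
    · exact absurd hv ((Set.disjoint_left.mp (hA N _ hN (ty_le _ _))) (h2' i hy2))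
    · have hv' := h1' i hy2
      by_contra hcon
      by_cases hne : N ≠ N' ∨ ty (b * N) (rel (pos s) (pos i)) ≠ ty (b * N') (rel (pos s') (pos i))
      · exact (Set.disjoint_left.mp (hJ N N' _ _ hN hN' (ty_le _ _) (ty_le _ _) hne)) hv hv'
      · push Not at hne
        obtain ⟨rfl, hty⟩ := hne
        exact hcon ⟨rfl, rel_inj (ty_eq hy3 hty)⟩
  rcases le_total N N' with h | h
  · exact key hN hN' hr h1 h1' h2' hx hx' h
  · obtain ⟨e1, e2⟩ := key hN' hN hr' h1' h1 h2 hx' hx h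
    exact ⟨e1.symm, e2.symm⟩

end Pool.Agent.Lib.MP_562b47_mp.BR
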