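import Pool.Agent.Lib.MP_562b47_mp.BR.Good

/-!
MP_562b47, bridge: geometry of the blocks, (g1)-(g4) of helper72's note.
-/

open Finset Matrix

namespace Pool.Agent.Lib.MP_562b47_mp.BR

open Pool.Agent.Lib.MP_562b47_mp.BG Pool.Agent.Lib.MP_562b47_mp.WO

/-- `y` is a corner of the block with centre `s` and radius `m` -/
def crn (m : ℤ) (s y : ℤ × ℤ) : Prop :=
  ((rel s y).1 = m ∨ (rel s y).1 = -m) ∧ ((rel s y).2 = m ∨ (rel s y).2 = -m)

/-- the site `y` cannot be in its windows for both blocks -/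
def conf (m : ℤ) (s : ℤ × ℤ) (m' : ℤ) (s' y : ℤ × ℤ) : Prop :=
  (rel s y ∈ prt m ∧ rel s' y ∈ BG.inn m') ∨ (rel s y ∈ BG.inn m ∧ rel s' y ∈ prt m') ∨
    (rel s y ∈ prt m ∧ rel s' y ∈ prt m' ∧ (m ≠ m' ∨ ty m (rel s y) ≠ ty m' (rel s' y)))

theorem conf_symm {m m' : ℤ} {s s' y : ℤ × ℤ} (h : conf m s m' s' y) : conf m' s' m s y := by
  rcases h with h | h | ⟨h1, h2, h3⟩
  · exact Or.inr (Or.inl ⟨h.2, h.1⟩)
  · exact Or.inl ⟨h.2, h.1⟩
  · refine Or.inr (Or.inr ⟨h2, h1, ?_⟩)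
    rcases h3 with h3 | h3
    · exact Or.inl (Ne.symm h3)
    · exact Or.inr (Ne.symm h3)

theorem prt_of {m : ℤ} {x : ℤ × ℤ} (h : x ∈ bq m) (h1 : x.1 = m ∨ x.1 = -m ∨ x.2 = m ∨ x.2 = -m) :
    x ∈ prt m := by
  rw [mem_prt, mem_qi]
  exact ⟨h, by omega⟩

/-- a corner of the smaller block inside the larger one -/
theorem lemA {m m' : ℤ} (hm : 3 ≤ m) (hmm : m ≤ m') {s s' : ℤ × ℤ} (hne : ¬ (m = m' ∧ s = s'))
    {y : ℤ × ℤ} (hy : crn m s y) (hy' : rel s' y ∈ bq m') {e : ℤ × ℤ} (he : y ≠ e) :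
    ∃ y', y' ≠ e ∧ conf m s m' s' y' := by
  have hyb : rel s y ∈ bq m := by
    rw [mem_bq]
    obtain ⟨h1, h2⟩ := hy
    omega
  have hyp : rel s y ∈ prt m := prt_of hyb (by obtain ⟨h1, _⟩ := hy; omega)
  rcases bq_cases hy' with h | h | h
  · refine ⟨y, he, Or.inr (Or.inr ⟨hyp, h, ?_⟩)⟩
    by_contra hcon
    push Not at hcon
    obtain ⟨rfl, h2⟩ := hcon
    exact hne ⟨rfl, rel_inj (ty_eq hy h2)⟩
  · -- `y` is the centre of the larger block
    have e1 : y.1 - s'.1 + 1 = 1 := congrArg Prod.fst h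
    have e2 : y.2 - s'.2 + 1 = 1 := congrArg Prod.snd h
    obtain ⟨h1, h2⟩ := hy
    simp only [rel] at h1 h2
    have key : ∀ y' : ℤ × ℤ, -m ≤ y'.1 - s.1 + 1 → y'.1 - s.1 + 1 ≤ m → -m ≤ y'.2 - s.2 + 1 →
        y'.2 - s.2 + 1 ≤ m → (y'.1 = y.1 ∨ y'.2 = y.2) → (y'.1 ≠ y.1 ∨ y'.2 ≠ y.2) →
        |y'.1 - y.1| ≤ 1 → |y'.2 - y.2| ≤ 1 → conf m s m' s' y' := by
      intro y' a1 a2 a3 a4 a5 a6 a7 a8
      rw [abs_le] at a7 a8
      refine Or.inl ⟨prt_of ?_ ?_, ?_⟩
      · rw [mem_bq]; simp only [rel]; omega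
      · simp only [rel]; omega
      · rw [BR.mem_inn, mem_qi]
        simp only [rel, ne_eq, Prod.mk.injEq, not_and]
        omega
    obtain ⟨t1, ht1⟩ : ∃ t1 : ℤ, (t1 = 1 ∨ t1 = -1) ∧ -m ≤ y.1 + t1 - s.1 + 1 ∧
        y.1 + t1 - s.1 + 1 ≤ m := by
      rcases h1 with h1 | h1
      · exact ⟨-1, by omega⟩
      · exact ⟨1, by omega⟩
    obtain ⟨t2, ht2⟩ : ∃ t2 : ℤ, (t2 = 1 ∨ t2 = -1) ∧ -m ≤ y.2 + t2 - s.2 + 1 ∧
        y.2 + t2 - s.2 + 1 ≤ m := by
      rcases h2 with h2 | h2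
      · exact ⟨-1, by omega⟩
      · exact ⟨1, by omega⟩
    by_cases hc : (y.1 + t1, y.2) = e
    · refine ⟨(y.1, y.2 + t2), ?_, ?_⟩
      · rw [← hc]
        simp only [ne_eq, Prod.mk.injEq, not_and]
        omega
      · exact key _ (by simp only; omega) (by simp only; omega) (by simp only; omega)
          (by simp only; omega) (Or.inl rfl) (Or.inr (by simp only; omega))
          (by simp only; rw [abs_le]; omega) (by simp only; rw [abs_le]; omega)
    · refine ⟨(y.1 + t1, y.2), hc, ?_⟩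
      exact key _ (by simp only; omega) (by simp only; omega) (by simp only; omega)
        (by simp only; omega) (Or.inr rfl) (Or.inl (by simp only; omega))
        (by simp only; rw [abs_le]; omega) (by simp only; rw [abs_le]; omega)
  · exact ⟨y, he, Or.inl ⟨hyp, h⟩⟩

/-- the main lemma: if two different blocks share a site `x ≠ e`, there is a conflict at some site
different from `e` -/
theorem main_le {m m' : ℤ} (hm : 3 ≤ m) (hmm : m ≤ m') {s s' : ℤ × ℤ}
    (hne : ¬ (m = m' ∧ s = s')) {x e : ℤ × ℤ} (hx : rel s x ∈ bq m) (hx' : rel s' x ∈ bq m')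
    (hxe : x ≠ e) : ∃ y, y ≠ e ∧ conf m s m' s' y := by
  obtain ⟨⟨a1, a2⟩, a3, a4⟩ := mem_bq.mp hx
  obtain ⟨⟨b1, b2⟩, b3, b4⟩ := mem_bq.mp hx'
  simp only [rel] at a1 a2 a3 a4 b1 b2 b3 b4
  obtain ⟨y1, h1, h2, h3⟩ := endpoint (m := m) (m' := m') (o := s.1 - 1) (o' := s'.1 - 1)
    (x := x.1) hmm (by omega) (by omega) (by omega) (by omega)
  obtain ⟨y2, g1, g2, g3⟩ := endpoint (m := m) (m' := m') (o := s.2 - 1) (o' := s'.2 - 1)
    (x := x.2) hmm (by omega) (by omega) (by omega) (by omega)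
  have hcrn : crn m s (y1, y2) := by
    unfold crn rel
    simp only
    omega
  have hbq : rel s' (y1, y2) ∈ bq m' := by
    rw [mem_bq]; simp only [rel]; omega
  by_cases hye : ((y1, y2) : ℤ × ℤ) = e
  swap
  · exact lemA hm hmm hne hcrn hbq hye
  subst hye
  have hx1 : x.1 ≠ y1 ∨ x.2 ≠ y2 := by
    by_contra hc
    push Not at hc
    exact hxe (Prod.ext hc.1 hc.2)
  rcases eq_or_lt_of_le hmm with heq | hlt
  · -- equal sizes: another corner
    subst heq
    have hss : s.1 ≠ s'.1 ∨ s.2 ≠ s'.2 := by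
      by_contra hc
      push Not at hc
      exact hne ⟨rfl, Prod.ext hc.1 hc.2⟩
    by_cases hd1 : s.1 = s'.1
    · refine lemA (y := (2 * (s.1 - 1) - y1, y2)) hm le_rfl hne ?_ ?_ ?_
      · unfold crn rel; simp only; omega
      · rw [mem_bq]; simp only [rel]; omega
      · simp only [ne_eq, Prod.mk.injEq, not_and]; omega
    · by_cases hd2 : s.2 = s'.2
      · refine lemA (y := (y1, 2 * (s.2 - 1) - y2)) hm le_rfl hne ?_ ?_ ?_
        · unfold crn rel; simp only; omega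
        · rw [mem_bq]; simp only [rel]; omega
        · simp only [ne_eq, Prod.mk.injEq, not_and]; omega
      · have hne' : ¬ (m = m ∧ s' = s) := fun h => hne ⟨rfl, h.2.symm⟩
        obtain ⟨y, hy, hy'⟩ := lemA (s := s') (s' := s)
          (y := (s'.1 - 1 - (y1 - (s.1 - 1)), s'.2 - 1 - (y2 - (s.2 - 1)))) (e := (y1, y2)) hm le_rfl
          hne' (by unfold crn rel; simp only; omega) (by rw [mem_bq]; simp only [rel]; omega)
          (by simp only [ne_eq, Prod.mk.injEq, not_and]; omega)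
        exact ⟨y, hy, conf_symm hy'⟩
  · -- different sizes: a neighbour of the corner on the ring
    have key : ∀ y : ℤ × ℤ, rel s y ∈ prt m → rel s' y ∈ bq m' → rel s' y ≠ (1, 1) →
        conf m s m' s' y := by
      intro y k1 k2 k3
      rcases bq_cases k2 with h | h | h
      · exact Or.inr (Or.inr ⟨k1, h, Or.inl (by omega)⟩)
      · exact absurd h k3
      · exact Or.inl ⟨k1, h⟩
    have step1 : ∀ t1 t2 : ℤ, (y1 - (s.1 - 1) = m ∧ t1 = -1 ∨ y1 - (s.1 - 1) = -m ∧ t1 = 1) →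
        (y2 - (s.2 - 1) = m ∧ t2 = -1 ∨ y2 - (s.2 - 1) = -m ∧ t2 = 1) →
        ∃ y, y ≠ (y1, y2) ∧ conf m s m' s' y := by
      intro t1 t2 ht1 ht2
      rcases hx1 with hx1 | hx1
      · by_cases hc : rel s' (y1 + t1, y2) = (1, 1)
        · have e1 : y1 + t1 - s'.1 + 1 = 1 := congrArg Prod.fst hc
          have e2 : y2 - s'.2 + 1 = 1 := congrArg Prod.snd hc
          refine ⟨(y1, y2 + t2), by simp only [ne_eq, Prod.mk.injEq, not_and]; omega,
            key _ (prt_of ?_ ?_) ?_ ?_⟩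
          · rw [mem_bq]; simp only [rel]; omega
          · simp only [rel]; omega
          · rw [mem_bq]; simp only [rel]; omega
          · simp only [rel, ne_eq, Prod.mk.injEq, not_and]; omega
        · refine ⟨(y1 + t1, y2), by simp only [ne_eq, Prod.mk.injEq, not_and]; omega,
            key _ (prt_of ?_ ?_) ?_ hc⟩
          · rw [mem_bq]; simp only [rel]; omega
          · simp only [rel]; omega
          · rw [mem_bq]; simp only [rel]; omega
      · by_cases hc : rel s' (y1, y2 + t2) = (1, 1)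
        · have e1 : y1 - s'.1 + 1 = 1 := congrArg Prod.fst hc
          have e2 : y2 + t2 - s'.2 + 1 = 1 := congrArg Prod.snd hc
          refine ⟨(y1 + t1, y2), by simp only [ne_eq, Prod.mk.injEq, not_and]; omega,
            key _ (prt_of ?_ ?_) ?_ ?_⟩
          · rw [mem_bq]; simp only [rel]; omega
          · simp only [rel]; omega
          · rw [mem_bq]; simp only [rel]; omega
          · simp only [rel, ne_eq, Prod.mk.injEq, not_and]; omega
        · refine ⟨(y1, y2 + t2), by simp only [ne_eq, Prod.mk.injEq, not_and]; omega,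
            key _ (prt_of ?_ ?_) ?_ hc⟩
          · rw [mem_bq]; simp only [rel]; omega
          · simp only [rel]; omega
          · rw [mem_bq]; simp only [rel]; omega
    obtain ⟨t1, ht1⟩ : ∃ t1 : ℤ, (y1 - (s.1 - 1) = m ∧ t1 = -1 ∨ y1 - (s.1 - 1) = -m ∧ t1 = 1) := by
      rcases h1 with h1 | h1
      · exact ⟨-1, Or.inl ⟨h1, rfl⟩⟩
      · exact ⟨1, Or.inr ⟨h1, rfl⟩⟩
    obtain ⟨t2, ht2⟩ : ∃ t2 : ℤ, (y2 - (s.2 - 1) = m ∧ t2 = -1 ∨ y2 - (s.2 - 1) = -m ∧ t2 = 1) := by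
      rcases g1 with g1 | g1
      · exact ⟨-1, Or.inl ⟨g1, rfl⟩⟩
      · exact ⟨1, Or.inr ⟨g1, rfl⟩⟩
    exact step1 t1 t2 ht1 ht2

theorem main_conf {m m' : ℤ} (hm : 3 ≤ m) (hm' : 3 ≤ m') {s s' : ℤ × ℤ}
    (hne : ¬ (m = m' ∧ s = s')) {x e : ℤ × ℤ} (hx : rel s x ∈ bq m) (hx' : rel s' x ∈ bq m')
    (hxe : x ≠ e) : ∃ y, y ≠ e ∧ conf m s m' s' y := by
  rcases le_total m m' with h | h
  · exact main_le hm h hne hx hx' hxe
  · obtain ⟨y, hy, hy'⟩ := main_le hm' h (fun h => hne ⟨h.1.symm, h.2.symm⟩) hx' hx hxe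
    exact ⟨y, hy, conf_symm hy'⟩

/-- if two squares have exactly one common site, it is a corner -/
theorem single_corner {m m' : ℤ} (hm : 3 ≤ m) (hm' : 3 ≤ m') {s s' e : ℤ × ℤ}
    (he : rel s e ∈ bq m) (he' : rel s' e ∈ bq m')
    (h : ∀ x, rel s x ∈ bq m → rel s' x ∈ bq m' → x = e) : crn m s e := by
  obtain ⟨⟨a1, a2⟩, a3, a4⟩ := mem_bq.mp he
  obtain ⟨⟨b1, b2⟩, b3, b4⟩ := mem_bq.mp he'
  simp only [rel] at a1 a2 a3 a4 b1 b2 b3 b4
  have key : ∀ x : ℤ × ℤ, x ≠ e → rel s x ∈ bq m → rel s' x ∈ bq m' → False :=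
    fun x hx h1 h2 => hx (h x h1 h2)
  unfold crn
  simp only [rel]
  by_contra hc
  by_cases h1 : e.1 - s.1 + 1 = m ∨ e.1 - s.1 + 1 = -m
  · have h2 : ¬ (e.2 - s.2 + 1 = m ∨ e.2 - s.2 + 1 = -m) := fun h2 => hc ⟨h1, h2⟩
    by_cases h3 : e.2 - s'.2 + 1 = m'
    · refine key (e.1, e.2 - 1) (fun h => ?_) ?_ ?_
      · have := congrArg Prod.snd h
        simp only at this
        omega
      · rw [mem_bq]; simp only [rel]; omega
      · rw [mem_bq]; simp only [rel]; omega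
    · refine key (e.1, e.2 + 1) (fun h => ?_) ?_ ?_
      · have := congrArg Prod.snd h
        simp only at this
        omega
      · rw [mem_bq]; simp only [rel]; omega
      · rw [mem_bq]; simp only [rel]; omega
  · by_cases h3 : e.1 - s'.1 + 1 = m'
    · refine key (e.1 - 1, e.2) (fun h => ?_) ?_ ?_
      · have := congrArg Prod.fst h
        simp only at this
        omega
      · rw [mem_bq]; simp only [rel]; omega
      · rw [mem_bq]; simp only [rel]; omega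
    · refine key (e.1 + 1, e.2) (fun h => ?_) ?_ ?_
      · have := congrArg Prod.fst h
        simp only at this
        omega
      · rw [mem_bq]; simp only [rel]; omega
      · rw [mem_bq]; simp only [rel]; omega

end Pool.Agent.Lib.MP_562b47_mp.BR
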