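import Pool.Agent.Lib.MP_562b47_mp.BR.Good
import Pool.Agent.Lib.MP_562b47_mp.ST.Exp

/-!
MP_562b47: START for the instance.  The constant does not depend on the number of classes `M`, on the
box, nor on the backgrounds `et j`.
-/

open Finset Matrix MeasureTheory

set_option linter.unusedSectionVars false

namespace Pool.Agent.Lib.MP_562b47_mp.BR

open Pool.Agent.Lib.MP_562b47_mp.BG Pool.Agent.Lib.MP_562b47_mp.WO Pool.Agent.Lib.MP_562b47_mp

/-! ### constants by size -/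

/-- size of a block -/
noncomputable def Gd.nQ {c : ℝ} (G : Gd c) (N : ℕ) : ℝ := (2 * (G.b : ℝ) * N + 1) ^ 2

/-- bound of the inner inverse -/
noncomputable def Gd.Rb {c : ℝ} (G : Gd c) (N : ℕ) : ℝ := Real.exp (G.C * (N : ℝ) ^ 3)

/-- lower bound of the strength of the absorber -/
noncomputable def Gd.gl {c : ℝ} (G : Gd c) (N : ℕ) : ℝ :=
  2 / lw G.r N * (G.z ^ (2 * N) / G.C)

/-- bound of the probability that a block is complete -/
noncomputable def Gd.PP {c : ℝ} (_ : Gd c) (Cw : ℝ) (N : ℕ) : ℝ :=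
  (Real.exp (-(Cw * (N : ℝ) ^ 3)) / c) ^ (N ^ 2)

section const

variable {c : ℝ} (G : Gd c)

theorem Gd.C_pos : 0 < G.C := by linarith [G.C_ge]

theorem Gd.nQ_nonneg (N : ℕ) : 0 ≤ G.nQ N := by unfold Gd.nQ; positivity

theorem Gd.gl_pos (N : ℕ) : 0 < G.gl N := by
  unfold Gd.gl
  have h1 := lw_pos G.r_pos N
  have h2 := G.z_pos
  have h3 := G.C_pos
  positivity

theorem Gd.Rb_nonneg (N : ℕ) : 0 ≤ G.Rb N := (Real.exp_pos _).le

theorem Gd.PP_nonneg {Cw : ℝ} (hc : 0 < c) (N : ℕ) : 0 ≤ G.PP Cw N := by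
  unfold Gd.PP
  positivity

theorem Gd.one_div_gl (N : ℕ) : 1 / G.gl N ≤ G.r * G.C * Real.exp (2 * (N : ℝ) * (-Real.log G.z)) := by
  have h1 := G.r_pos
  have h2 := G.z_pos
  have h3 := G.C_pos
  have e1 : Real.exp (2 * (N : ℝ) * (-Real.log G.z)) = (G.z ^ (2 * N))⁻¹ := by
    have : 2 * (N : ℝ) * (-Real.log G.z) = -(((2 * N : ℕ) : ℝ) * Real.log G.z) := by
      push_cast; ring
    rw [this, Real.exp_neg, Real.exp_nat_mul, Real.exp_log h2]
  rw [e1]
  have e2 : 1 / G.gl N = lw G.r N / 2 * G.C * (G.z ^ (2 * N))⁻¹ := by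
    unfold Gd.gl
    have := lw_pos G.r_pos N
    field_simp
  rw [e2]
  have e3 : lw G.r N ≤ G.r := by
    unfold lw
    apply div_le_self h1.le
    have : (0 : ℝ) ≤ N := Nat.cast_nonneg N
    nlinarith [sq_nonneg (N : ℝ)]
  have e4 : 0 < (G.z ^ (2 * N))⁻¹ := by positivity
  have e5 : 0 < lw G.r N := lw_pos G.r_pos N
  gcongr
  linarith

theorem Gd.summable_W {Cw : ℝ} (hc : 0 < c) (hCw : 1 ≤ Cw) {a0 : ℝ} (ha0 : 0 < a0) :
    Summable fun N : ℕ => G.PP Cw N * ST.Wj G.nQ G.gl G.Rb 4 a0 N := by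
  set Lz : ℝ := -Real.log G.z with hLz
  have hLz0 : 0 ≤ Lz := by
    rw [hLz]
    have := Real.log_nonpos G.z_pos.le G.z_lt.le
    linarith
  set A : ℝ := |Real.log c| + 10 + 4 * G.C + 4 * Lz with hA
  have hC := G.C_pos
  have hr := G.r_pos
  set K : ℝ := (2 * (G.b : ℝ) + 1) ^ 10 * 69 ^ 2 * (1 / a0 + G.r * G.C) ^ 2 with hK
  have hb : (3 : ℝ) ≤ G.b := by exact_mod_cast G.hb
  have hK0 : 0 ≤ K := by positivity
  have hsum : Summable fun N : ℕ => K * Real.exp (-(N : ℝ)) :=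
    (Real.summable_exp_neg_nat).mul_left K
  refine Summable.of_norm_bounded_eventually_nat hsum ?_
  obtain ⟨N1, hN1⟩ := exists_nat_ge (A + 1)
  filter_upwards [Filter.eventually_ge_atTop (max N1 1)] with N hN
  have hN1' : (1 : ℝ) ≤ N := by exact_mod_cast (le_max_right N1 1).trans hN
  have hNA : A + 1 ≤ N := hN1.trans (by exact_mod_cast (le_max_left N1 1).trans hN)
  have hN0 : (0 : ℝ) ≤ N := by linarith
  have hW0 : 0 ≤ ST.Wj G.nQ G.gl G.Rb 4 a0 N := ST.Wj_nonneg (G.nQ_nonneg N)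
  rw [Real.norm_of_nonneg (mul_nonneg (G.PP_nonneg hc N) hW0)]
  have hexpN : (N : ℝ) ≤ Real.exp N := by linarith [Real.add_one_le_exp (N : ℝ)]
  -- size
  have h1 : G.nQ N ≤ (2 * (G.b : ℝ) + 1) ^ 2 * Real.exp (2 * N) := by
    unfold Gd.nQ
    have e1 : 2 * (G.b : ℝ) * N + 1 ≤ (2 * (G.b : ℝ) + 1) * Real.exp N := by
      calc 2 * (G.b : ℝ) * N + 1 ≤ (2 * (G.b : ℝ) + 1) * N := by nlinarith
        _ ≤ (2 * (G.b : ℝ) + 1) * Real.exp N := by gcongr
    have e2 : Real.exp (2 * (N : ℝ)) = Real.exp N ^ 2 := by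
      rw [← Real.exp_nat_mul]; norm_num
    rw [e2, ← mul_pow]
    have e3 : 0 ≤ 2 * (G.b : ℝ) * N + 1 := by positivity
    gcongr
  -- inner inverse
  have h2 : 1 + 4 * ((4 : ℝ) ^ 2 + 1) * G.Rb N ^ 2 ≤ 69 * Real.exp (2 * G.C * (N : ℝ) ^ 3) := by
    have e1 : Real.exp (2 * G.C * (N : ℝ) ^ 3) = G.Rb N ^ 2 := by
      unfold Gd.Rb
      rw [← Real.exp_nat_mul]
      congr 1
      push_cast
      ring
    rw [e1]
    have e2 : 1 ≤ G.Rb N := Real.one_le_exp (by positivity)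
    nlinarith
  -- strength
  have h3 : 1 / a0 + 1 / G.gl N ≤ (1 / a0 + G.r * G.C) * Real.exp (2 * (N : ℝ) * Lz) := by
    have e1 := G.one_div_gl N
    have e2 : 1 ≤ Real.exp (2 * (N : ℝ) * Lz) := Real.one_le_exp (by positivity)
    have e3 : 0 < 1 / a0 := by positivity
    nlinarith
  have hg0 : 0 < 1 / G.gl N := by have := G.gl_pos N; positivity
  have h4 : ST.Wj G.nQ G.gl G.Rb 4 a0 N ≤
      K * Real.exp (10 * N + 4 * G.C * (N : ℝ) ^ 3 + 4 * N * Lz) := by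
    unfold ST.Wj
    have hn := G.nQ_nonneg N
    calc G.nQ N * (G.nQ N ^ 2 * (1 + 4 * ((4 : ℝ) ^ 2 + 1) * G.Rb N ^ 2) *
          (1 / a0 + 1 / G.gl N)) ^ 2
        ≤ ((2 * (G.b : ℝ) + 1) ^ 2 * Real.exp (2 * N)) *
          ((((2 * (G.b : ℝ) + 1) ^ 2 * Real.exp (2 * N)) ^ 2 *
            (69 * Real.exp (2 * G.C * (N : ℝ) ^ 3)) *
            ((1 / a0 + G.r * G.C) * Real.exp (2 * (N : ℝ) * Lz))) ^ 2) := by gcongr
      _ = K * (Real.exp (2 * N) ^ 5 * Real.exp (2 * G.C * (N : ℝ) ^ 3) ^ 2 *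
          Real.exp (2 * (N : ℝ) * Lz) ^ 2) := by rw [hK]; ring
      _ = _ := by
          congr 1
          rw [← Real.exp_nat_mul, ← Real.exp_nat_mul, ← Real.exp_nat_mul, ← Real.exp_add,
            ← Real.exp_add]
          congr 1
          push_cast
          ring
  have h5 : G.PP Cw N ≤ Real.exp (-(N : ℝ) ^ 5 + (N : ℝ) ^ 2 * |Real.log c|) := by
    unfold Gd.PP
    have e1 : Real.exp (-(Cw * (N : ℝ) ^ 3)) / c = Real.exp (-(Cw * (N : ℝ) ^ 3) - Real.log c) := by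
      rw [Real.exp_sub, Real.exp_log hc]
    rw [e1, ← Real.exp_nat_mul]
    apply Real.exp_le_exp.mpr
    push_cast
    have e2 : -Real.log c ≤ |Real.log c| := neg_le_abs _
    have e3 : (0 : ℝ) ≤ (N : ℝ) ^ 2 := by positivity
    have e4 : (N : ℝ) ^ 2 * -Real.log c ≤ (N : ℝ) ^ 2 * |Real.log c| :=
      mul_le_mul_of_nonneg_left e2 e3
    have e5 : (N : ℝ) ^ 5 ≤ Cw * (N : ℝ) ^ 5 := by
      have : (0 : ℝ) ≤ (N : ℝ) ^ 5 := by positivity
      nlinarith
    nlinarith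
  calc G.PP Cw N * ST.Wj G.nQ G.gl G.Rb 4 a0 N
      ≤ Real.exp (-(N : ℝ) ^ 5 + (N : ℝ) ^ 2 * |Real.log c|) *
        (K * Real.exp (10 * N + 4 * G.C * (N : ℝ) ^ 3 + 4 * N * Lz)) := by gcongr
    _ = K * Real.exp (-(N : ℝ) ^ 5 + (N : ℝ) ^ 2 * |Real.log c| +
        (10 * N + 4 * G.C * (N : ℝ) ^ 3 + 4 * N * Lz)) := by
        rw [Real.exp_add (-(N : ℝ) ^ 5 + (N : ℝ) ^ 2 * |Real.log c|)]
        ring
    _ ≤ K * Real.exp (-(N : ℝ)) := by
        refine mul_le_mul_of_nonneg_left (Real.exp_le_exp.mpr ?_) hK0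
        have p1 : (N : ℝ) ^ 2 * |Real.log c| ≤ (N : ℝ) ^ 3 * |Real.log c| := by
          refine mul_le_mul_of_nonneg_right ?_ (abs_nonneg _)
          nlinarith [sq_nonneg (N : ℝ)]
        have p0 : (N : ℝ) ≤ (N : ℝ) ^ 3 := by nlinarith [sq_nonneg (N : ℝ)]
        have p2 : 10 * (N : ℝ) ≤ 10 * (N : ℝ) ^ 3 := by linarith
        have p3 : 4 * N * Lz ≤ 4 * (N : ℝ) ^ 3 * Lz := by
          refine mul_le_mul_of_nonneg_right ?_ hLz0
          linarith
        have p4 : A * (N : ℝ) ^ 3 ≤ (N : ℝ) ^ 5 - (N : ℝ) ^ 3 := by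
          have q1 : A ≤ (N : ℝ) - 1 := by linarith
          have q2 : (0 : ℝ) ≤ (N : ℝ) ^ 3 := by positivity
          have q3 : (N : ℝ) - 1 ≤ (N : ℝ) ^ 2 - 1 := by nlinarith
          have q4 : A ≤ (N : ℝ) ^ 2 - 1 := q1.trans q3
          calc A * (N : ℝ) ^ 3 ≤ ((N : ℝ) ^ 2 - 1) * (N : ℝ) ^ 3 := by gcongr
            _ = _ := by ring
        have p5 : A * (N : ℝ) ^ 3 = (N : ℝ) ^ 3 * |Real.log c| + 10 * (N : ℝ) ^ 3 +
            4 * G.C * (N : ℝ) ^ 3 + 4 * (N : ℝ) ^ 3 * Lz := by rw [hA]; ring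
        linarith

end const

/-! ### geometry -/

namespace Par

variable {c : ℝ} {ι : Type*}

/-- the coordinates -/
noncomputable def xi (P : Par c ι) : Fin 2 → ι → ℝ := fun j x =>
  if j = 0 then ((P.pos x).1 : ℝ) else ((P.pos x).2 : ℝ)

variable [Fintype ι] [DecidableEq ι]

/-- the neighbours -/
noncomputable def nb (P : Par c ι) (x : ι) : Finset ι :=
  univ.filter fun y => adj (P.pos x) (P.pos y)

variable (P : Par c ι)

theorem mem_nb {x y : ι} : y ∈ P.nb x ↔ adj (P.pos x) (P.pos y) := by simp [nb]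

theorem card_nb (x : ι) : (P.nb x).card ≤ 4 := by
  classical
  have h1 : (P.nb x).card = ((P.nb x).image P.pos).card :=
    (card_image_of_injective _ P.inj).symm
  have h2 : (P.nb x).image P.pos ⊆ {((P.pos x).1 + 1, (P.pos x).2), ((P.pos x).1 - 1, (P.pos x).2),
      ((P.pos x).1, (P.pos x).2 + 1), ((P.pos x).1, (P.pos x).2 - 1)} := by
    intro y hy
    obtain ⟨y', hy', rfl⟩ := mem_image.mp hy
    have := (P.mem_nb).mp hy'
    unfold adj at this
    simp only [mem_insert, mem_singleton]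
    exact this
  rw [h1]
  exact (card_le_card h2).trans card_le_four

theorem A_off {p q : ι} (h : p ≠ q) : P.A p q = if adj (P.pos p) (P.pos q) then -1 else 0 := by
  simp only [A, AA, Matrix.of_apply, if_neg h]
  split_ifs <;> ring

theorem geo : ST.Geo P.A P.xi P.nb 4 where
  supp := by
    intro p q hpq hq
    rw [P.mem_nb] at hq
    rw [P.A_off hpq, if_neg hq]
  symN := by
    intro p q hq
    rw [P.mem_nb] at hq ⊢
    exact adj_comm.mp hq
  card := by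
    intro p
    exact_mod_cast P.card_nb p
  hop := by
    intro p q hpq
    rw [P.A_off hpq]
    split_ifs <;> simp
  step := by
    intro j p q
    by_cases hpq : p = q
    · subst hpq; simp
    · rw [P.A_off hpq]
      split_ifs with h
      · have h1 : |P.xi j q - P.xi j p| ≤ 1 := by
          unfold xi
          unfold adj at h
          rcases h with h | h | h | h <;> rw [h] <;> split_ifs <;> push_cast <;> simp
        rw [neg_one_mul, abs_neg]
        exact h1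
      · simp

theorem card_TT_le (s : ι) (T : Finset (ℤ × ℤ)) : (TT P.pos s T).card ≤ T.card := by
  refine card_le_card_of_injOn (fun x => rel (P.pos s) (P.pos x)) (fun x hx => ?_) ?_
  · exact mem_TT.mp hx
  · intro x _ y _ hxy
    exact P.inj (rel_inj' hxy)

theorem card_TT_eq {q : P.Blk} {T : Finset (ℤ × ℤ)} (hT : T ⊆ bq (P.rad q)) :
    ((TT P.pos (P.ctr q) T).card : ℝ) = T.card := by
  have h := sum_TT P.inj (P.ran q) hT (fun _ => (1 : ℝ))
  simpa using h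

theorem card_bq {m : ℤ} (hm : 0 ≤ m) : ((bq m).card : ℝ) = (2 * m + 1) ^ 2 := by
  unfold bq
  rw [card_product, Int.card_Icc]
  have h1 : (((m + 1 - -m).toNat : ℕ) : ℝ) = 2 * m + 1 := by
    have : (((m + 1 - -m).toNat : ℕ) : ℤ) = 2 * m + 1 := by
      rw [Int.toNat_of_nonneg (by omega)]; ring
    have h2 : (((m + 1 - -m).toNat : ℤ) : ℝ) = ((2 * m + 1 : ℤ) : ℝ) := by rw [this]
    push_cast at h2
    exact h2
  push_cast
  rw [h1]
  ring

theorem rad_cast (q : P.Blk) : ((P.rad q : ℤ) : ℝ) = P.G.b * (P.num q : ℝ) := by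
  unfold rad
  push_cast
  ring

theorem card_Q_le (q : P.Blk) : ((P.sys.Q q).card : ℝ) ≤ P.G.nQ (P.num q) := by
  have h1 : ((P.sys.Q q).card : ℝ) ≤ ((bq (P.rad q)).card : ℝ) := by
    exact_mod_cast P.card_TT_le (P.ctr q) (bq (P.rad q))
  have h2 := P.rad_ge q
  rw [card_bq (by omega)] at h1
  refine h1.trans (le_of_eq ?_)
  unfold Gd.nQ
  rw [P.rad_cast q]
  ring

theorem card_inn_ge (q : P.Blk) : (P.num q) ^ 2 ≤ (P.sys.inn q).card := by
  rw [P.inn_eq]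
  have h1 := P.card_TT_eq (q := q) (T := BG.inn (P.rad q)) (inn_sub _)
  have h2 : (P.num q) ^ 2 ≤ (BG.inn (P.rad q)).card := by
    have h3 := P.rad_ge q
    have h4 : (1, 1) ∈ BG.qi (P.rad q) := by
      rw [BR.mem_qi]
      simp only
      omega
    unfold BG.inn
    rw [card_erase_of_mem h4]
    unfold BG.qi
    rw [card_product, Int.card_Icc]
    have h5 : (P.num q : ℤ) + 1 ≤ P.rad q - 1 + 1 - -(P.rad q - 1) := by
      have h6 : (1 : ℤ) ≤ P.num q := by exact_mod_cast P.one_le_num q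
      have h7 := P.G.hb
      have h8 : (3 : ℤ) * (P.num q : ℤ) ≤ P.rad q := by
        unfold rad
        nlinarith
      omega
    have h9 : P.num q + 1 ≤ (P.rad q - 1 + 1 - -(P.rad q - 1)).toNat := by omega
    have h10 : (P.num q + 1) * (P.num q + 1) ≤ (P.rad q - 1 + 1 - -(P.rad q - 1)).toNat *
        (P.rad q - 1 + 1 - -(P.rad q - 1)).toNat := Nat.mul_le_mul h9 h9
    have h11 : (P.num q) ^ 2 + 1 ≤ (P.num q + 1) * (P.num q + 1) := by nlinarith
    omega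
  have h3 : (BG.inn (P.rad q)).card = (TT P.pos (P.ctr q) (BG.inn (P.rad q))).card := by
    exact_mod_cast h1.symm
  rw [← h3]
  exact h2

theorem de_le_c (q : P.Blk) : P.de (P.num q) / c ≤ 1 := by
  have h1 := P.de_le_ρ (P.one_le_num q)
  have h2 := P.c_ge
  have h3 := P.G.r_pos
  have h4 := P.G.ρ_pos
  rw [div_le_one P.c_pos]
  linarith

theorem prob_le (q : P.Blk) : P.sys.mu.real {V | P.sys.comp q V} ≤ P.G.PP P.Cw (P.num q) := by
  classical
  have hc := P.c_pos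
  rw [ST.prob_comp]
  have hfac : ∀ x, 0 ≤ (P.sys.hi q x - P.sys.lo q x) / (2 * P.sys.c) ∧
      (P.sys.hi q x - P.sys.lo q x) / (2 * P.sys.c) ≤ 1 := by
    intro x
    have h1 := P.sys.lo_lt q x
    have h2 := P.sys.lo_ge q x
    have h3 := P.sys.hi_le q x
    have h4 := P.sys.c_pos
    constructor
    · have : 0 ≤ P.sys.hi q x - P.sys.lo q x := by linarith
      positivity
    · rw [div_le_one (by linarith)]
      linarith
  have hsub : P.sys.inn q ⊆ (P.sys.Q q).erase (P.sys.w q) := by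
    intro x hx
    have := (P.sys.mem_inn).mp hx
    exact mem_erase.mpr ⟨this.1, this.2.1⟩
  have h1 : ∏ x ∈ (P.sys.Q q).erase (P.sys.w q), (P.sys.hi q x - P.sys.lo q x) / (2 * P.sys.c) ≤
      ∏ x ∈ P.sys.inn q, (P.sys.hi q x - P.sys.lo q x) / (2 * P.sys.c) := by
    rw [← prod_sdiff hsub]
    have h0 : 0 ≤ ∏ x ∈ P.sys.inn q, (P.sys.hi q x - P.sys.lo q x) / (2 * P.sys.c) :=
      prod_nonneg fun x _ => (hfac x).1
    have h9 : ∏ x ∈ ((P.sys.Q q).erase (P.sys.w q)) \ P.sys.inn q,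
        (P.sys.hi q x - P.sys.lo q x) / (2 * P.sys.c) ≤ 1 :=
      prod_le_one (fun x _ => (hfac x).1) (fun x _ => (hfac x).2)
    calc _ ≤ 1 * ∏ x ∈ P.sys.inn q, (P.sys.hi q x - P.sys.lo q x) / (2 * P.sys.c) := by gcongr
      _ = _ := one_mul _
  refine h1.trans ?_
  have h2 : ∀ x ∈ P.sys.inn q, (P.sys.hi q x - P.sys.lo q x) / (2 * P.sys.c) =
      P.de (P.num q) / c := by
    intro x hx
    have h3 := (P.mem_inn').mp hx
    have h4 : P.sys.lo q x = P.lo q x := rfl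
    have h5 : P.sys.hi q x = P.hi q x := rfl
    have h6 : P.sys.c = c := rfl
    rw [h4, h5, h6, P.lo_inn h3, P.hi_inn h3]
    field_simp
    ring
  rw [prod_congr rfl h2, prod_const]
  have h7 : 0 ≤ P.de (P.num q) / c := by
    have := P.de_pos (P.num q)
    positivity
  exact pow_le_pow_of_le_one h7 (P.de_le_c q) (P.card_inn_ge q)

theorem mult_le (j : ℕ) : ((univ.filter fun q : P.Blk => P.sys.cls q = j).card : ℝ) ≤
    1 * Fintype.card ι := by
  rw [one_mul]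
  have h1 : (univ.filter fun q : P.Blk => P.sys.cls q = j).card ≤ (univ : Finset ι).card := by
    refine card_le_card_of_injOn (fun q => P.ctr q) (fun _ _ => mem_univ _) ?_
    intro q hq q' hq' h
    have e1 : P.cls q = j := (mem_filter.mp hq).2
    have e2 : P.cls q' = j := (mem_filter.mp hq').2
    have e3 : q.1.1 = q'.1.1 := by
      apply Fin.ext
      exact e1.trans e2.symm
    exact Subtype.ext (Prod.ext e3 h)
  exact_mod_cast h1

end Par

/-- START for the instance -/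
theorem exists_start.{u} {c : ℝ} (hc : 0 < c) (G : Gd c) (Cw : ℝ) (hCw : 1 ≤ Cw) (N0 : ℕ) {a0 : ℝ}
    (ha0 : 0 < a0) : ∃ K : ℝ, 0 < K ∧ ∀ (ι : Type u) [Fintype ι] [DecidableEq ι] (P : Par c ι),
      P.G = G → P.Cw = Cw → P.N0 = N0 → WO.Good P.sys P.A →
      (∀ j, P.et j * G.nQ (N0 + j) * G.Rb (N0 + j) ≤ 1 / 2) →
      ∀ (m : ℕ) (t a : ℝ), a0 ≤ a → a ≤ 1 → 0 ≤ t → t ≤ 1 →
        P.sys.Dw P.A P.xi m t a ≤ K * Fintype.card ι := by
  have hsum := (summable_nat_add_iff N0).mpr (G.summable_W hc hCw ha0)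
  set T : ℝ := ∑' j, G.PP Cw (j + N0) * ST.Wj G.nQ G.gl G.Rb 4 a0 (j + N0) with hT
  have hW0 : ∀ N, 0 ≤ G.PP Cw N * ST.Wj G.nQ G.gl G.Rb 4 a0 N := fun N =>
    mul_nonneg (G.PP_nonneg hc N) (ST.Wj_nonneg (G.nQ_nonneg N))
  have hT0 : 0 ≤ T := tsum_nonneg fun j => hW0 _
  refine ⟨32 * 2 * 4 ^ 2 * (1 / a0 ^ 2 + 1 * T), by positivity, ?_⟩
  intro ι _ _ P hG hCw' hN0 hgood het m t a haa ha1 ht0 ht1
  subst hG hN0
  have ha : 0 < a := ha0.trans_le haa
  set nQ : ℕ → ℝ := fun j => P.G.nQ (P.N0 + j) with hnQ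
  set gl : ℕ → ℝ := fun j => P.G.gl (P.N0 + j) with hgl
  set Rb : ℕ → ℝ := fun j => P.G.Rb (P.N0 + j) with hRb
  have hI : ST.Inner P.sys P.A Rb := by
    refine ⟨fun j => P.G.Rb_nonneg _, fun q V hq x y => ?_, fun q => ?_⟩
    · exact P.RS_le hq x y
    · have h1 := het (P.cls q)
      have h2 : ((P.sys.inn q).card : ℝ) ≤ P.G.nQ (P.N0 + P.cls q) := by
        have h3 := ST.card_inn_lt (S := P.sys) q
        have h4 := P.card_Q_le q
        have h5 : ((P.sys.inn q).card : ℝ) ≤ ((P.sys.Q q).card : ℝ) := by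
          exact_mod_cast (Nat.le_succ _).trans h3
        exact h5.trans h4
      have h3 := P.et_pos (P.cls q)
      have h4 := P.G.Rb_nonneg (P.N0 + P.cls q)
      refine le_trans ?_ h1
      show P.et (P.cls q) * ((P.sys.inn q).card : ℝ) * P.G.Rb (P.N0 + P.cls q) ≤ _
      gcongr
  have hC : ST.Cls P.sys P.A nQ gl :=
    ⟨fun q => P.card_Q_le q, fun j => P.G.gl_pos _, fun q V hq => P.gg_ge hq⟩
  have hWa : ∀ N, ST.Wj P.G.nQ P.G.gl P.G.Rb 4 a N ≤ ST.Wj P.G.nQ P.G.gl P.G.Rb 4 a0 N := by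
    intro N
    unfold ST.Wj
    have h1 := P.G.nQ_nonneg N
    have h2 : 1 / a ≤ 1 / a0 := one_div_le_one_div_of_le ha0 haa
    have h3 : 0 < 1 / a := by positivity
    have h4 : 0 < 1 / P.G.gl N := by have := P.G.gl_pos N; positivity
    gcongr
  have hterm : ∀ j, P.G.PP Cw (P.N0 + j) * ST.Wj nQ gl Rb 4 a j ≤
      P.G.PP Cw (j + P.N0) * ST.Wj P.G.nQ P.G.gl P.G.Rb 4 a0 (j + P.N0) := by
    intro j
    have h1 : ST.Wj nQ gl Rb 4 a j = ST.Wj P.G.nQ P.G.gl P.G.Rb 4 a (P.N0 + j) := rfl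
    rw [h1, add_comm P.N0 j]
    exact mul_le_mul_of_nonneg_left (hWa _) (P.G.PP_nonneg hc _)
  have hterm0 : ∀ j, 0 ≤ P.G.PP Cw (P.N0 + j) * ST.Wj nQ gl Rb 4 a j := fun j =>
    mul_nonneg (P.G.PP_nonneg hc _) (ST.Wj_nonneg (P.G.nQ_nonneg _))
  have hs : Summable fun j => P.G.PP Cw (P.N0 + j) * ST.Wj nQ gl Rb 4 a j :=
    Summable.of_nonneg_of_le hterm0 hterm hsum
  have h := ST.start (d := 4) hgood P.geo hI hC ha ha1 m ht0 ht1 (P := fun j => P.G.PP Cw (P.N0 + j))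
    (mult := 1) P.mult_le (fun q => by rw [← hCw']; exact P.prob_le q) (fun j => P.G.PP_nonneg hc _)
    (fun j => P.G.nQ_nonneg _) zero_le_one hs
  refine h.trans ?_
  rw [Fintype.card_fin]
  have h1 : 1 / a ^ 2 ≤ 1 / a0 ^ 2 :=
    one_div_le_one_div_of_le (by positivity) (by gcongr)
  have h2 : ∑' j, P.G.PP Cw (P.N0 + j) * ST.Wj nQ gl Rb 4 a j ≤ T := hs.tsum_le_tsum hterm hsum
  push_cast
  gcongr

end Pool.Agent.Lib.MP_562b47_mp.BR
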