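import Pool.Agent.Lib.MP_562b47_mp.BR.Quant
import Pool.Agent.Lib.MP_562b47_mp.BR.Start
import Pool.Agent.Lib.MP_562b47_mp.LH.Geo

/-!
MP_562b47, bridge: the instance satisfies `LH.Geo`.
-/

open Finset Matrix

set_option linter.unusedSectionVars false

namespace Pool.Agent.Lib.MP_562b47_mp.BR

open Pool.Agent.Lib.MP_562b47_mp.BG Pool.Agent.Lib.MP_562b47_mp.WO Pool.Agent.Lib.MP_562b47_mp

namespace Par

variable {c : ℝ} {ι : Type*} [Fintype ι] [DecidableEq ι] (P : Par c ι)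

theorem ff_eq (x y : ι) : AL.ff P.xi x y =
    (((P.pos x).1 : ℝ) - (P.pos y).1) ^ 2 + (((P.pos x).2 : ℝ) - (P.pos y).2) ^ 2 := by
  unfold AL.ff xi
  rw [Fin.sum_univ_two]
  simp

theorem ff_one {x y : ι} (h : x ≠ y) : 1 ≤ AL.ff P.xi x y := by
  rw [P.ff_eq]
  have h1 : (P.pos x).1 ≠ (P.pos y).1 ∨ (P.pos x).2 ≠ (P.pos y).2 := by
    by_contra hc
    push Not at hc
    exact h (P.inj (Prod.ext hc.1 hc.2))
  have key : ∀ u v : ℤ, u ≠ v → (1 : ℝ) ≤ ((u : ℝ) - v) ^ 2 := by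
    intro u v huv
    have h2 : (1 : ℤ) ≤ (u - v) ^ 2 := by
      have h3 : u - v ≠ 0 := sub_ne_zero.mpr huv
      have : 0 < (u - v) ^ 2 := by positivity
      omega
    exact_mod_cast h2
  rcases h1 with h1 | h1
  · have := key _ _ h1
    nlinarith [sq_nonneg (((P.pos x).2 : ℝ) - (P.pos y).2)]
  · have := key _ _ h1
    nlinarith [sq_nonneg (((P.pos x).1 : ℝ) - (P.pos y).1)]

/-- the block of class `j` centred at `s` is contained in the box -/
def fits (j : ℕ) (s : ι) : Prop :=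
  ∀ x, rel (P.pos s) x ∈ bq (P.G.b * ((P.N0 + j : ℕ) : ℤ)) → x ∈ Set.range P.pos

open Classical in
/-- the sites with a block of class `m + 1` -/
noncomputable def gds (m : ℕ) : Finset ι := univ.filter fun s => P.fits (m + 1) s

theorem mem_gds {m : ℕ} {s : ι} : s ∈ P.gds m ↔ P.fits (m + 1) s := by
  unfold gds
  simp

open Classical in
/-- the block of class `m + 1` with centre `s` -/
noncomputable def bs [Nonempty P.Blk] (m : ℕ) (s : ι) : P.Blk :=
  if h : ∃ q : P.Blk, P.cls q = m + 1 ∧ P.ctr q = s then h.choose else Classical.arbitrary _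

theorem bs_spec [Nonempty P.Blk] {m : ℕ} (hm : m + 1 ≤ P.M) {s : ι} (hs : s ∈ P.gds m) :
    P.cls (P.bs m s) = m + 1 ∧ P.ctr (P.bs m s) = s := by
  have h1 : ∃ q : P.Blk, P.cls q = m + 1 ∧ P.ctr q = s :=
    P.exists_blk hm s (P.mem_gds.mp hs)
  unfold bs
  rw [dif_pos h1]
  exact h1.choose_spec

/-- the instance satisfies the geometric hypotheses of Lemma H' -/
theorem lhGeo [Nonempty P.Blk] {m : ℕ} (hm : m + 1 ≤ P.M) :
    LH.Geo P.sys m P.xi (P.gds m) (P.bs m) P.j0 P.j1 (P.G.r / 2) where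
  bs_w := fun s hs => (P.bs_spec hm hs).2
  bs_cls := fun s hs => by
    have h1 : P.sys.cls (P.bs m s) = P.cls (P.bs m s) := rfl
    rw [h1, (P.bs_spec hm hs).1]
    omega
  j0_ge := P.j0_ge
  j1_le := P.j1_le
  j_lt := by
    have := P.j1_sub
    linarith [P.G.r_pos]
  j_free := fun _ _ _ hx hw => P.J0_free hx hw
  l0_pos := by linarith [P.G.r_pos]
  l0_le := by
    have h1 : P.sys.c = c := rfl
    rw [h1]
    linarith [P.c_ge, P.G.r_pos, P.G.ρ_pos]
  l_free := fun _ _ _ hx hw => by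
    have h1 : P.sys.c = c := rfl
    rw [h1]
    have h2 := P.ends_free hx hw
    have h3 := P.G.r_pos
    constructor <;> linarith
  g1 := fun _ _ _ _ h => by
    obtain ⟨x, h1, h2, h3⟩ := P.g1 h
    exact ⟨x, h2, h3, h1⟩
  ff_one := fun _ _ h => P.ff_one h

end Par

end Pool.Agent.Lib.MP_562b47_mp.BR
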