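import Pool.Agent.Lib.MP_562b47_mp.BR.InstA
import Pool.Agent.Lib.MP_562b47_mp.LG.Reg
import Pool.Agent.Lib.MP_562b47_mp.EC.Small

/-!
MP_562b47, bridge: the instance satisfies `LG.Quant`, `LG.Nb` and `EC.EHyp`.
-/

open Finset Matrix

set_option linter.unusedSectionVars false

namespace Pool.Agent.Lib.MP_562b47_mp.BR

open Pool.Agent.Lib.MP_562b47_mp.BG Pool.Agent.Lib.MP_562b47_mp.WO Pool.Agent.Lib.MP_562b47_mp

/-- bound of the row sums -/
noncomputable def Gd.al {c : ℝ} (G : Gd c) : ℝ := c + |G.v| + 4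

/-- lower bound of the strength, at most one -/
noncomputable def Gd.glo {c : ℝ} (G : Gd c) (N : ℕ) : ℝ := min 1 (G.gl N)

theorem Gd.nQ_ge {c : ℝ} (G : Gd c) (N : ℕ) : 1 ≤ G.nQ N := by
  have h1 : (0 : ℝ) ≤ G.b := by exact_mod_cast (by linarith [G.hb] : (0 : ℤ) ≤ G.b)
  unfold Gd.nQ
  have h2 : (1 : ℝ) ≤ 2 * (G.b : ℝ) * N + 1 := by
    have : (0 : ℝ) ≤ 2 * (G.b : ℝ) * N := by positivity
    linarith
  exact one_le_pow₀ h2

theorem Gd.Rb_ge {c : ℝ} (G : Gd c) (N : ℕ) : 1 ≤ G.Rb N := by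
  unfold Gd.Rb
  apply Real.one_le_exp
  have : 0 ≤ G.C := by linarith [G.C_ge]
  positivity

theorem Gd.glo_pos {c : ℝ} (G : Gd c) (N : ℕ) : 0 < G.glo N := lt_min one_pos (G.gl_pos N)

theorem Gd.glo_le {c : ℝ} (G : Gd c) (N : ℕ) : G.glo N ≤ 1 := min_le_left _ _

namespace Par

variable {c : ℝ} {ι : Type*} [Fintype ι] [DecidableEq ι] (P : Par c ι)

theorem A_apply (x y : ι) : P.A x y =
    (if x = y then 4 - P.E else 0) - if adj (P.pos x) (P.pos y) then 1 else 0 := rfl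

theorem A_adj {x y : ι} (h : adj (P.pos x) (P.pos y)) : P.A x y = -1 := by
  have hne : x ≠ y := by
    rintro rfl
    exact adj_irrefl h
  rw [A_apply, if_neg hne, if_pos h]
  ring

theorem adj_of {x y : ι} (hne : x ≠ y) (h : P.A x y ≠ 0) : adj (P.pos x) (P.pos y) := by
  by_contra hc
  apply h
  rw [A_apply, if_neg hne, if_neg hc, sub_zero]

theorem card_adj (x : ι) : (univ.filter fun y : ι => adj (P.pos x) (P.pos y)).card ≤ 4 := by
  set T : Finset (ℤ × ℤ) := {((P.pos x).1 + 1, (P.pos x).2), ((P.pos x).1 - 1, (P.pos x).2),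
    ((P.pos x).1, (P.pos x).2 + 1), ((P.pos x).1, (P.pos x).2 - 1)} with hT
  have h1 : (univ.filter fun y : ι => adj (P.pos x) (P.pos y)).card ≤ T.card := by
    apply Finset.card_le_card_of_injOn P.pos
    · intro y hy
      have hy' : adj (P.pos x) (P.pos y) := (Finset.mem_filter.mp (Finset.mem_coe.mp hy)).2
      rw [Finset.mem_coe, hT]
      simp only [Finset.mem_insert, Finset.mem_singleton]
      exact hy'
    · exact P.inj.injOn
  refine h1.trans ?_
  rw [hT]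
  exact Finset.card_le_four

theorem E_bd : |4 - P.E| ≤ c + |P.G.v| := by
  have h := P.adm
  unfold Gd.Adm at h
  have h1 : 4 - P.E = P.G.v - (P.E - 4 + P.G.v) := by ring
  have h2 := abs_sub (P.G.v) (P.E - 4 + P.G.v)
  rw [h1]
  linarith [P.G.ρ_pos, P.G.r_pos]

theorem row (x : ι) : ∑ y, |P.A x y| ≤ P.G.al := by
  have h1 : ∀ y, |P.A x y| ≤ (if x = y then |4 - P.E| else 0) +
      (if adj (P.pos x) (P.pos y) then 1 else 0) := by
    intro y
    rw [A_apply]
    refine (abs_sub _ _).trans ?_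
    apply add_le_add
    · split_ifs
      · exact le_rfl
      · rw [abs_zero]
    · split_ifs
      · rw [abs_one]
      · rw [abs_zero]
  refine (Finset.sum_le_sum fun y _ => h1 y).trans ?_
  rw [Finset.sum_add_distrib, Finset.sum_ite_eq, if_pos (Finset.mem_univ x), Finset.sum_boole]
  have h2 : ((univ.filter fun y : ι => adj (P.pos x) (P.pos y)).card : ℝ) ≤ 4 := by
    exact_mod_cast P.card_adj x
  unfold Gd.al
  linarith [P.E_bd]

theorem card_inn (q : P.Blk) : ((P.sys.inn q).card : ℝ) + 1 ≤ P.G.nQ (P.num q) := by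
  refine le_trans ?_ (P.card_Q_le q)
  have hw : P.sys.w q ∉ P.sys.inn q := by
    intro h
    exact ((P.sys.mem_inn).mp h).1 rfl
  have h1 : insert (P.sys.w q) (P.sys.inn q) ⊆ P.sys.Q q := by
    intro x hx
    rcases Finset.mem_insert.mp hx with h | h
    · rw [h]; exact P.sys.w_mem q
    · exact ((P.sys.mem_inn).mp h).2.1
  have h2 := Finset.card_le_card h1
  rw [Finset.card_insert_of_notMem hw] at h2
  exact_mod_cast h2

theorem card_L (q : P.Blk) : ((P.sys.L q).card : ℝ) ≤ P.G.nQ (P.num q) := by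
  refine le_trans ?_ (P.card_Q_le q)
  exact_mod_cast Finset.card_le_card (P.sys.L_sub q)

theorem glo_le_gg {q : P.Blk} {V : ι → ℝ} (h : P.sys.comp q V) :
    P.G.glo (P.num q) ≤ P.sys.gg P.A q V := (min_le_right _ _).trans (P.gg_ge h)

theorem de_le_half (q : P.Blk) : P.de (P.num q) ≤ 1 / 2 := by
  have h1 : (1 : ℝ) ≤ P.num q := by exact_mod_cast P.one_le_num q
  have h2 : (1 : ℝ) ≤ (P.num q : ℝ) ^ 3 := one_le_pow₀ h1
  have h3 := P.G.C_ge
  have h4 := P.Cw_ge
  have h5 : (1 : ℝ) ≤ P.Cw * (P.num q : ℝ) ^ 3 := by nlinarith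
  have h6 : P.de (P.num q) ≤ Real.exp (-1) := by
    unfold de
    exact Real.exp_le_exp.mpr (by linarith)
  have h7 : Real.exp (-1) ≤ 1 / 2 := by
    rw [Real.exp_neg, one_div]
    apply inv_anti₀ (by norm_num)
    have := Real.add_one_le_exp (1 : ℝ)
    linarith
  linarith

/-- the quantitative hypotheses of the local estimates -/
theorem lgQuant (hes : ∀ j ≤ P.M, 8 * P.G.al ^ 2 * (P.G.Rb (P.N0 + j) * P.G.nQ (P.N0 + j)) ^ 3 *
    P.et j ≤ min P.G.r 1) : LG.Quant P.sys P.A P.G.al (fun j => P.G.Rb (P.N0 + j))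
    (fun j => P.G.nQ (P.N0 + j)) (fun j => P.G.glo (P.N0 + j)) where
  row := P.row
  one_α := by
    unfold Gd.al
    linarith [P.c_pos, abs_nonneg P.G.v]
  RS_le := fun q _ h x _ y _ => P.RS_le h x y
  card_le := P.card_inn
  one_CI := fun _ => P.G.Rb_ge _
  one_NI := fun _ => P.G.nQ_ge _
  glo_pos := fun _ => P.G.glo_pos _
  glo_le := fun _ => P.G.glo_le _
  g_ge := fun _ _ h => P.glo_le_gg h
  win_le := fun q x hx => by
    rw [P.win_inn (P.mem_inn'.mp hx)]
    have := P.de_le_half q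
    unfold de at this
    linarith
  et_small := fun q => hes (P.cls q) (P.cls_le q)

theorem pos_inj {x y : ι} (h : P.pos x = P.pos y) : x = y := P.inj h

/-- sites near the centre are inner sites -/
theorem near_ctr {q : P.Blk} (hN : 2 ≤ P.N0) {x : ι}
    (h : |(P.pos x).1 - (P.pos (P.ctr q)).1| + |(P.pos x).2 - (P.pos (P.ctr q)).2| ≤ 2) :
    x ∈ P.sys.qi q := by
  obtain ⟨x', h1, h2⟩ := P.g2 hN h
  rw [← P.pos_inj h1]
  exact h2

theorem adj_dist {x y : ℤ × ℤ} (h : adj x y) : |y.1 - x.1| + |y.2 - x.2| = 1 := by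
  obtain ⟨x1, x2⟩ := x
  obtain ⟨y1, y2⟩ := y
  unfold adj at h
  simp only [Prod.mk.injEq] at h
  simp only
  rcases h with ⟨h1, h2⟩ | ⟨h1, h2⟩ | ⟨h1, h2⟩ | ⟨h1, h2⟩ <;> rw [h1, h2]
  · rw [show x1 + 1 - x1 = 1 by ring, show x2 - x2 = 0 by ring]; norm_num
  · rw [show x1 - 1 - x1 = -1 by ring, show x2 - x2 = 0 by ring]; norm_num
  · rw [show x1 - x1 = 0 by ring, show x2 + 1 - x2 = 1 by ring]; norm_num
  · rw [show x1 - x1 = 0 by ring, show x2 - 1 - x2 = -1 by ring]; norm_num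

/-- the neighbourhood of the centre -/
theorem lgNb (hN : 2 ≤ P.N0) (b0 : P.Blk) : LG.Nb P.sys P.A b0 where
  near := by
    intro y hy hA
    have h1 : adj (P.pos (P.ctr b0)) (P.pos y) := P.adj_of (Ne.symm hy) hA
    have d1 := adj_dist h1
    have hq1 : y ∈ P.sys.qi b0 := P.near_ctr hN (by omega)
    refine ⟨((P.sys.mem_qi).mp hq1).1, ?_⟩
    intro z hz
    by_cases hyz : y = z
    · rw [← hyz]; exact ((P.sys.mem_qi).mp hq1).1
    · have d2 := adj_dist (P.adj_of hyz hz)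
      have t1 := abs_sub_le (P.pos z).1 (P.pos y).1 (P.pos (P.ctr b0)).1
      have t2 := abs_sub_le (P.pos z).2 (P.pos y).2 (P.pos (P.ctr b0)).2
      exact ((P.sys.mem_qi).mp (P.near_ctr hN (by omega))).1
  nbr := by
    obtain ⟨x, h1, h2⟩ := P.g2 (q := b0) hN
      (y := ((P.pos (P.ctr b0)).1 + 1, (P.pos (P.ctr b0)).2)) (by
        simp only
        rw [show (P.pos (P.ctr b0)).1 + 1 - (P.pos (P.ctr b0)).1 = 1 by ring,
          show (P.pos (P.ctr b0)).2 - (P.pos (P.ctr b0)).2 = 0 by ring]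
        norm_num)
    have ha : adj (P.pos (P.ctr b0)) (P.pos x) := Or.inl h1
    refine ⟨x, ?_, ?_⟩
    · rintro rfl
      exact adj_irrefl ha
    · have : P.A x (P.sys.w b0) = -1 := P.A_adj (adj_comm.mp ha)
      rw [this]; norm_num
  port := by
    intro b hb
    have hL := P.mem_L.mp hb
    have h0 : P.sys.w b0 = P.ctr b0 := rfl
    rw [h0] at hL ⊢
    obtain ⟨hb1, hb2⟩ := mem_prt.mp hL
    rw [mem_bq] at hb1
    rw [BR.mem_qi] at hb2
    have hr := P.rad_ge b
    -- a direction leading out of the block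
    have hdir : ∃ y : ℤ × ℤ, adj (P.pos (P.ctr b0)) y ∧ rel (P.pos (P.ctr b)) y ∉ bq (P.rad b) := by
      have hco : P.co b (P.ctr b0) = rel (P.pos (P.ctr b)) (P.pos (P.ctr b0)) := rfl
      rw [hco] at hb1 hb2
      simp only [rel] at hb1 hb2
      by_cases h1 : (P.pos (P.ctr b0)).1 - (P.pos (P.ctr b)).1 + 1 = P.rad b
      · refine ⟨_, Or.inl rfl, ?_⟩
        rw [mem_bq]; simp only [rel]; omega
      · by_cases h2 : (P.pos (P.ctr b0)).1 - (P.pos (P.ctr b)).1 + 1 = -P.rad b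
        · refine ⟨_, Or.inr (Or.inl rfl), ?_⟩
          rw [mem_bq]; simp only [rel]; omega
        · by_cases h3 : (P.pos (P.ctr b0)).2 - (P.pos (P.ctr b)).2 + 1 = P.rad b
          · refine ⟨_, Or.inr (Or.inr (Or.inl rfl)), ?_⟩
            rw [mem_bq]; simp only [rel]; omega
          · refine ⟨_, Or.inr (Or.inr (Or.inr rfl)), ?_⟩
            rw [mem_bq]; simp only [rel]; omega
    obtain ⟨y, hy1, hy2⟩ := hdir
    have d1 := adj_dist hy1
    obtain ⟨x, rfl, hx⟩ := P.g2 (q := b0) hN (y := y) (by omega)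
    refine ⟨x, ?_, ?_, ?_⟩
    · rintro rfl
      exact adj_irrefl hy1
    · intro h
      exact hy2 (P.mem_Q.mp h)
    · have : P.A x (P.ctr b0) = -1 := P.A_adj (adj_comm.mp hy1)
      rw [this]; norm_num

/-- smallness of the background needed in a block with parameter `N` -/
def _root_.Pool.Agent.Lib.MP_562b47_mp.BR.Gd.Sm {c : ℝ} (G : Gd c) (N : ℕ) (a : ℝ) : Prop :=
  a * G.nQ N * G.Rb N ≤ 1 / 2 ∧
    G.nQ N * (G.al ^ 2 * (2 * a * G.nQ N * G.Rb N ^ 2)) ^ 2 ≤ G.z ^ (2 * N) / G.C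

/-- the hypotheses of section 5 -/
theorem ecHyp (hN : 2 ≤ P.N0) (hG : WO.Good P.sys P.A) (m : ℕ) {a : ℝ} (ha : 0 < a)
    (hsm : P.G.Sm (P.N0 + m) a) :
    EC.EHyp P.sys P.A P.xi m a (2 * ((P.G.b : ℝ) * (P.N0 + m : ℕ) + 1) ^ 2) where
  sepw := by
    intro b _ y hy hyw
    by_contra hA
    have h1 : adj (P.pos (P.ctr b)) (P.pos y) := P.adj_of (Ne.symm hyw) hA
    have d1 := adj_dist h1
    have h2 : y ∈ P.sys.qi b := P.near_ctr hN (by omega)
    apply hy
    rw [P.sys.mem_inn]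
    exact ⟨hyw, (P.sys.mem_qi).mp h2⟩
  phc := by
    intro b V hb hV
    have hnum : P.num b = P.N0 + m := by
      have h1 : P.cls b = m := hb
      unfold num
      rw [h1]
    obtain ⟨s1, s2⟩ := hsm
    rw [← hnum] at s1 s2
    have hc0 := P.card_inn b
    have hcn : (0 : ℝ) ≤ ((P.sys.inn b).card : ℝ) := Nat.cast_nonneg _
    have hce := P.G.Rb_ge (P.num b)
    have hnq := P.G.nQ_ge (P.num b)
    have hcard : ((P.sys.inn b).card : ℝ) ≤ P.G.nQ (P.num b) := by linarith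
    have hal : 0 ≤ P.G.al := by
      unfold Gd.al
      linarith [P.c_pos, abs_nonneg P.G.v]
    have h2 := EC.phc_le (R := P.G.Rb (P.num b)) (α := P.G.al) hG hV ha (P.RS_le hV)
      (by
        refine le_trans ?_ s1
        gcongr)
      P.row
      (by
        refine le_trans ?_ (s2.trans (P.sum_ph_ge hV))
        gcongr
        exact P.card_L b)
    rw [← hb]
    exact h2
  diam := by
    intro b hb x hx
    have hnum : P.num b = P.N0 + m := by
      have h1 : P.cls b = m := hb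
      unfold num
      rw [h1]
    have h0 : P.sys.w b = P.ctr b := rfl
    rw [h0, P.ff_eq]
    obtain ⟨⟨a1, a2⟩, a3, a4⟩ := mem_bq.mp (P.mem_Q.mp hx)
    simp only [co, rel] at a1 a2 a3 a4
    have hrad : P.rad b = P.G.b * ((P.N0 + m : ℕ) : ℤ) := by
      unfold rad
      rw [hnum]
    rw [hrad] at a1 a2 a3 a4
    have key : ∀ u v w : ℤ, -w ≤ u - v + 1 → u - v + 1 ≤ w →
        ((u : ℝ) - v) ^ 2 ≤ ((w : ℝ) + 1) ^ 2 := by
      intro u v w h1 h2
      have h3 : (-(w : ℝ)) ≤ u - v + 1 := by exact_mod_cast h1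
      have h4 : (u : ℝ) - v + 1 ≤ w := by exact_mod_cast h2
      apply sq_le_sq'
      · linarith
      · linarith
    have k1 := key _ _ _ a1 a2
    have k2 := key _ _ _ a3 a4
    push_cast at k1 k2 ⊢
    linarith
  dm_nonneg := by positivity

end Par

end Pool.Agent.Lib.MP_562b47_mp.BR
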