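import Pool.Agent.Lib.MP_562b47_mp.BR.NumT
import Pool.Agent.Lib.MP_562b47_mp.BR.InstB

/-!
MP_562b47, the instance: hypotheses of section 5 (`EC.EHyp`) and of the bridge (`LB`): coupling of
the centre at background `a`, diameter, numbers.
-/

open Finset Matrix

set_option linter.unusedSectionVars false

namespace Pool.Agent.Lib.MP_562b47_mp.BR

open Pool.Agent.Lib.MP_562b47_mp.BG Pool.Agent.Lib.MP_562b47_mp.WO Pool.Agent.Lib.MP_562b47_mp.AL

section num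

variable {c : ℝ} (G : Gd c)

/-- error of the complex coupling, at background `a` -/
noncomputable def Gd.er {c : ℝ} (G : Gd c) (N : ℕ) (a : ℝ) : ℝ :=
  G.al ^ 2 * (2 * a * G.nQ N * G.Rb N ^ 2)

/-- the background `a` is small for the blocks of size `N` -/
structure Gd.SmE {c : ℝ} (G : Gd c) (N : ℕ) (a : ℝ) : Prop where
  half : a * G.nQ N * G.Rb N ≤ 1 / 2
  ph : G.nQ N * G.er N a ^ 2 ≤ G.z ^ (2 * N) / G.C
  ze : G.er N a + a ≤ G.gl N / 8

theorem Gd.nQ_ge49 {N : ℕ} (hN : 1 ≤ N) : 49 ≤ G.nQ N := by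
  have hb : (3 : ℝ) ≤ G.b := by exact_mod_cast G.hb
  have hN' : (1 : ℝ) ≤ N := by exact_mod_cast hN
  unfold Gd.nQ
  nlinarith [mul_le_mul hb hN' zero_le_one (by linarith : (0 : ℝ) ≤ G.b)]

/-- a constant is at most `exp (K N ^ 3)` -/
theorem le_exp_cube {X : ℝ} (hX : 0 < X) {K : ℝ} (hK : |Real.log X| ≤ K) {N : ℕ} (hN : 1 ≤ N) :
    X ≤ Real.exp (K * (N : ℝ) ^ 3) := by
  have h1 : (1 : ℝ) ≤ N := by exact_mod_cast hN
  have h2 : (1 : ℝ) ≤ (N : ℝ) ^ 3 := one_le_pow₀ h1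
  have h3 : Real.log X ≤ K * (N : ℝ) ^ 3 := by
    have h4 := le_abs_self (Real.log X)
    have h5 := abs_nonneg (Real.log X)
    nlinarith
  calc X = Real.exp (Real.log X) := (Real.exp_log hX).symm
    _ ≤ _ := Real.exp_le_exp.mpr h3

/-- all constants of the instance are at most `exp (K N ^ 3)` -/
theorem Gd.exists_K (hc : 0 < c) : ∃ K : ℝ, 0 ≤ K ∧ ∀ N : ℕ, 1 ≤ N →
    G.nQ N ≤ Real.exp (K * (N : ℝ) ^ 3) ∧ G.Rb N ≤ Real.exp (K * (N : ℝ) ^ 3) ∧
    G.al ≤ Real.exp (K * (N : ℝ) ^ 3) ∧ G.C ≤ Real.exp (K * (N : ℝ) ^ 3) ∧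
    1 / G.z ^ (2 * N) ≤ Real.exp (K * (N : ℝ) ^ 3) ∧
    1 / G.gl N ≤ Real.exp (K * (N : ℝ) ^ 3) := by
  have hb : (3 : ℝ) ≤ G.b := by exact_mod_cast G.hb
  have hC := G.C_pos
  have hal : 0 < G.al := by
    unfold Gd.al
    have := abs_nonneg G.v
    linarith
  have hz := G.z_pos
  have hlz : Real.log G.z < 0 := Real.log_neg hz G.z_lt
  set X1 : ℝ := (2 * (G.b : ℝ) + 1) ^ 2 with hX1
  set K : ℝ := (|Real.log X1| + 2) + G.C + |Real.log G.al| + |Real.log G.C| +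
    2 * (-Real.log G.z) + (|Real.log (G.r * G.C)| + 2 * (-Real.log G.z)) with hK
  have hX1p : 0 < X1 := by positivity
  have hKnn : 0 ≤ K := by
    have := abs_nonneg (Real.log X1)
    have := abs_nonneg (Real.log G.al)
    have := abs_nonneg (Real.log G.C)
    have := abs_nonneg (Real.log (G.r * G.C))
    rw [hK]; linarith
  have a1 := abs_nonneg (Real.log X1)
  have a2 := abs_nonneg (Real.log G.al)
  have a3 := abs_nonneg (Real.log G.C)
  have a4 := abs_nonneg (Real.log (G.r * G.C))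
  refine ⟨K, hKnn, fun N hN => ?_⟩
  have hN1 : (1 : ℝ) ≤ N := by exact_mod_cast hN
  have hN3 : (1 : ℝ) ≤ (N : ℝ) ^ 3 := one_le_pow₀ hN1
  have hNN : (N : ℝ) ≤ (N : ℝ) ^ 3 := by nlinarith [sq_nonneg ((N : ℝ)), sq_nonneg ((N : ℝ) - 1)]
  have hmono : ∀ {k : ℝ}, k ≤ K → Real.exp (k * (N : ℝ) ^ 3) ≤ Real.exp (K * (N : ℝ) ^ 3) := by
    intro k hk
    apply Real.exp_le_exp.mpr
    exact mul_le_mul_of_nonneg_right hk (by positivity)
  refine ⟨?_, ?_, ?_, ?_, ?_, ?_⟩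
  · -- nQ
    have e1 : G.nQ N ≤ X1 * Real.exp (2 * (N : ℝ) ^ 3) := by
      have hexp : (N : ℝ) ≤ Real.exp ((N : ℝ) ^ 3) := by
        have := Real.add_one_le_exp ((N : ℝ) ^ 3)
        linarith
      have e2 : 2 * (G.b : ℝ) * N + 1 ≤ (2 * (G.b : ℝ) + 1) * Real.exp ((N : ℝ) ^ 3) := by
        calc 2 * (G.b : ℝ) * N + 1 ≤ (2 * (G.b : ℝ) + 1) * N := by nlinarith
          _ ≤ (2 * (G.b : ℝ) + 1) * Real.exp ((N : ℝ) ^ 3) := by gcongr
      have e3 : Real.exp (2 * (N : ℝ) ^ 3) = Real.exp ((N : ℝ) ^ 3) ^ 2 := by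
        rw [← Real.exp_nat_mul]; norm_num
      rw [e3, hX1, ← mul_pow]
      unfold Gd.nQ
      have e4 : 0 ≤ 2 * (G.b : ℝ) * N + 1 := by positivity
      gcongr
    have e5 : X1 ≤ Real.exp (|Real.log X1| * (N : ℝ) ^ 3) := le_exp_cube hX1p le_rfl hN
    calc G.nQ N ≤ X1 * Real.exp (2 * (N : ℝ) ^ 3) := e1
      _ ≤ Real.exp (|Real.log X1| * (N : ℝ) ^ 3) * Real.exp (2 * (N : ℝ) ^ 3) := by gcongr
      _ = Real.exp ((|Real.log X1| + 2) * (N : ℝ) ^ 3) := by rw [← Real.exp_add]; ring_nf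
      _ ≤ _ := hmono (by rw [hK]; linarith)
  · unfold Gd.Rb
    exact hmono (by rw [hK]; linarith)
  · exact (le_exp_cube hal le_rfl hN).trans (hmono (by rw [hK]; linarith))
  · exact (le_exp_cube hC le_rfl hN).trans (hmono (by rw [hK]; linarith))
  · have e1 : 1 / G.z ^ (2 * N) = Real.exp (2 * (N : ℝ) * (-Real.log G.z)) := by
      have e2 : G.z ^ (2 * N) = Real.exp (2 * (N : ℝ) * Real.log G.z) := by
        rw [← Real.exp_log (pow_pos hz (2 * N)), Real.log_pow]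
        push_cast
        ring_nf
      rw [e2, one_div, ← Real.exp_neg]
      ring_nf
    rw [e1]
    refine le_trans (Real.exp_le_exp.mpr ?_) (hmono (k := 2 * (-Real.log G.z)) (by rw [hK]; linarith))
    nlinarith
  · refine (G.one_div_gl N).trans ?_
    have e5 : G.r * G.C ≤ Real.exp (|Real.log (G.r * G.C)| * (N : ℝ) ^ 3) :=
      le_exp_cube (mul_pos G.r_pos hC) le_rfl hN
    calc G.r * G.C * Real.exp (2 * (N : ℝ) * (-Real.log G.z))
        ≤ Real.exp (|Real.log (G.r * G.C)| * (N : ℝ) ^ 3) *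
          Real.exp (2 * (-Real.log G.z) * (N : ℝ) ^ 3) := by
          refine mul_le_mul e5 (Real.exp_le_exp.mpr ?_) (Real.exp_pos _).le (Real.exp_pos _).le
          nlinarith
      _ = Real.exp ((|Real.log (G.r * G.C)| + 2 * (-Real.log G.z)) * (N : ℝ) ^ 3) := by
          rw [← Real.exp_add]; ring_nf
      _ ≤ _ := hmono (by rw [hK]; linarith)

/-- `a ≤ exp (- N ^ 12)` is small enough -/
theorem Gd.exists_SmE (hc : 0 < c) : ∃ N1 : ℕ, 1 ≤ N1 ∧ ∀ N : ℕ, N1 ≤ N → ∀ a : ℝ, 0 < a →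
    a ≤ Real.exp (-((N : ℝ) ^ 12)) → G.SmE N a := by
  obtain ⟨K, hK0, hK⟩ := G.exists_K hc
  obtain ⟨N1, h1, h2⟩ := exp_beats (24 + 13 * K) 1 one_pos (k := 3) (l := 12) (by norm_num)
    (ε := 1) one_pos
  obtain ⟨N2, h3, h4⟩ := G.exists_et
  refine ⟨max N1 N2, h1.trans (le_max_left _ _), fun N hN a ha haN => ?_⟩
  have hN1 : 1 ≤ N := (h1.trans (le_max_left _ _)).trans hN
  obtain ⟨k1, k2, k3, k4, k5, k6⟩ := hK N hN1
  have h5 := h2 N ((le_max_left _ _).trans hN)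
  have h6 := h4 N ((le_max_right _ _).trans hN)
  rw [one_mul] at h5
  set e := Real.exp (K * (N : ℝ) ^ 3) with he
  set η := Real.exp (-((N : ℝ) ^ 12)) with hη
  have he0 : 0 < e := Real.exp_pos _
  have he1 : 1 ≤ e := Real.one_le_exp (by positivity)
  have hη0 : 0 < η := Real.exp_pos _
  have hη1 : η ≤ 1 := Real.exp_le_one_iff.mpr (by
    have : (0 : ℝ) ≤ (N : ℝ) ^ 12 := by positivity
    linarith)
  have hn0 := G.nQ_nonneg N
  have hR0 := G.Rb_nonneg N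
  have hC := G.C_pos
  have hal0 : 0 ≤ G.al := by
    unfold Gd.al
    have := abs_nonneg G.v
    linarith
  -- the main numerical inequality
  have hbig : 24 * e ^ 13 * η ≤ 1 := by
    have e1 : e ^ 13 = Real.exp (13 * K * (N : ℝ) ^ 3) := by
      rw [he, ← Real.exp_nat_mul]; push_cast; ring_nf
    have e2 : e ^ 13 ≤ Real.exp ((24 + 13 * K) * (N : ℝ) ^ 3) := by
      rw [e1]
      apply Real.exp_le_exp.mpr
      have : (0 : ℝ) ≤ (N : ℝ) ^ 3 := by positivity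
      nlinarith
    calc 24 * e ^ 13 * η ≤ (24 + 13 * K) * Real.exp ((24 + 13 * K) * (N : ℝ) ^ 3) * η := by
          gcongr
          linarith
      _ ≤ 1 := h5
  have her : G.er N a ≤ 2 * e ^ 5 * a := by
    unfold Gd.er
    calc G.al ^ 2 * (2 * a * G.nQ N * G.Rb N ^ 2) ≤ e ^ 2 * (2 * a * e * e ^ 2) := by gcongr
      _ = 2 * e ^ 5 * a := by ring
  have her0 : 0 ≤ G.er N a := by
    unfold Gd.er; positivity
  refine ⟨?_, ?_, ?_⟩
  · exact le_trans (by gcongr) h6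
  · have hz := G.z_pos
    have hzN : 0 < G.z ^ (2 * N) := by positivity
    have g1 : G.nQ N * G.er N a ^ 2 ≤ e * (2 * e ^ 5 * a) ^ 2 := by gcongr
    have g2 : e * (2 * e ^ 5 * a) ^ 2 ≤ 4 * e ^ 11 * η := by
      calc e * (2 * e ^ 5 * a) ^ 2 = 4 * e ^ 11 * (a * a) := by ring
        _ ≤ 4 * e ^ 11 * (η * 1) := by
            have : a ≤ 1 := haN.trans hη1
            gcongr
        _ = 4 * e ^ 11 * η := by ring
    have g3 : e⁻¹ * e⁻¹ ≤ G.z ^ (2 * N) / G.C := by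
      rw [div_eq_mul_inv]
      have g4 : e⁻¹ ≤ G.z ^ (2 * N) := by
        rw [inv_le_comm₀ he0 hzN]
        rw [one_div] at k5
        exact k5
      have g5 : e⁻¹ ≤ G.C⁻¹ := inv_anti₀ hC k4
      exact mul_le_mul g4 g5 (by positivity) hzN.le
    refine (g1.trans g2).trans (le_trans ?_ g3)
    rw [← mul_inv, ← one_div, le_div_iff₀ (by positivity)]
    calc 4 * e ^ 11 * η * (e * e) = 4 * e ^ 13 * η := by ring
      _ ≤ 24 * e ^ 13 * η := by gcongr; norm_num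
      _ ≤ 1 := hbig
  · have g1 : e⁻¹ ≤ G.gl N := by
      have := G.gl_pos N
      rw [inv_le_comm₀ he0 this]
      rw [one_div] at k6
      exact k6
    have g2 : G.er N a + a ≤ 3 * e ^ 5 * η := by
      have : a ≤ e ^ 5 * a := by
        have : 1 ≤ e ^ 5 := one_le_pow₀ he1
        nlinarith
      calc G.er N a + a ≤ 2 * e ^ 5 * a + e ^ 5 * a := add_le_add her this
        _ = 3 * e ^ 5 * a := by ring
        _ ≤ 3 * e ^ 5 * η := by gcongr
    have g3 : 3 * e ^ 5 * η ≤ e⁻¹ / 8 := by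
      rw [le_div_iff₀ (by norm_num), ← one_div, le_div_iff₀ he0]
      calc 3 * e ^ 5 * η * 8 * e = 24 * e ^ 6 * η := by ring
        _ ≤ 24 * e ^ 13 * η := by
            have : e ^ 6 ≤ e ^ 13 := pow_le_pow_right₀ he1 (by norm_num)
            gcongr
        _ ≤ 1 := hbig
    linarith

theorem Gd.SmE.sm {G : Gd c} {N : ℕ} {a : ℝ} (h : G.SmE N a) : G.Sm N a := ⟨h.half, h.ph⟩

end num

namespace Par

variable {c : ℝ} {ι : Type*} [Fintype ι] [DecidableEq ι] (P : Par c ι)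

theorem sepw' (q : P.Blk) : ∀ y, y ∉ P.sys.inn q → y ≠ P.sys.w q → P.A (P.sys.w q) y = 0 := by
  intro y hy hyw
  have hw : P.sys.w q = P.ctr q := rfl
  rw [hw] at hyw ⊢
  rw [P.A_off (Ne.symm hyw), if_neg]
  intro ha
  apply hy
  rw [P.mem_inn', BR.mem_inn]
  have h1 : adj (P.co q (P.ctr q)) (P.co q y) := adj_rel.mpr ha
  rw [P.co_ctr] at h1
  have h2 : P.co q y ≠ (1, 1) := fun h => hyw (P.co_eq_one.mp h)
  refine ⟨h2, ?_⟩
  have h3 := P.rad_ge q
  rw [mem_qi]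
  unfold adj at h1
  rcases h1 with h1 | h1 | h1 | h1 <;> (rw [h1]; simp only; omega)

theorem diam' (q : P.Blk) {x : ι} (hx : x ∈ P.sys.Q q) :
    ff P.xi x (P.sys.w q) ≤ P.G.nQ (P.num q) := by
  rw [P.mem_Q] at hx
  have hw : P.sys.w q = P.ctr q := rfl
  have h1 : (P.co q x).1 = (P.pos x).1 - (P.pos (P.ctr q)).1 + 1 := rfl
  have h2 : (P.co q x).2 = (P.pos x).2 - (P.pos (P.ctr q)).2 + 1 := rfl
  rw [mem_bq] at hx
  rw [h1, h2] at hx
  have hr := P.rad_ge q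
  set d1 : ℤ := (P.pos x).1 - (P.pos (P.ctr q)).1 with hd1
  set d2 : ℤ := (P.pos x).2 - (P.pos (P.ctr q)).2 with hd2
  have e1 : d1 ^ 2 ≤ (P.rad q + 1) ^ 2 := by
    apply sq_le_sq'
    · omega
    · omega
  have e2 : d2 ^ 2 ≤ (P.rad q + 1) ^ 2 := by
    apply sq_le_sq'
    · omega
    · omega
  have e3 : d1 ^ 2 + d2 ^ 2 ≤ (2 * P.rad q + 1) ^ 2 := by nlinarith
  have e4 : ff P.xi x (P.sys.w q) = ((d1 ^ 2 + d2 ^ 2 : ℤ) : ℝ) := by
    unfold ff
    rw [Fin.sum_univ_two, hw]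
    unfold xi
    rw [if_pos rfl, if_pos rfl, if_neg (by norm_num), if_neg (by norm_num), hd1, hd2]
    push_cast
    ring
  have e5 : P.G.nQ (P.num q) = (((2 * P.rad q + 1) ^ 2 : ℤ) : ℝ) := by
    unfold Gd.nQ
    push_cast
    rw [P.rad_cast q]
    ring
  rw [e4, e5]
  exact_mod_cast e3

theorem card_inn_le (q : P.Blk) : ((P.sys.inn q).card : ℝ) ≤ P.G.nQ (P.num q) := by
  have h3 : (P.sys.inn q).card ≤ (P.sys.Q q).card :=
    Finset.card_le_card fun x hx => P.sys.inn_sub hx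
  exact le_trans (by exact_mod_cast h3) (P.card_Q_le q)

theorem card_L_le (q : P.Blk) : ((P.sys.L q).card : ℝ) ≤ P.G.nQ (P.num q) := by
  have h3 : (P.sys.L q).card ≤ (P.sys.Q q).card := Finset.card_le_card (P.sys.L_sub q)
  exact le_trans (by exact_mod_cast h3) (P.card_Q_le q)

theorem er_ge (q : P.Blk) {a : ℝ} (ha : 0 < a) :
    P.G.al ^ 2 * (2 * a * ((P.sys.inn q).card : ℝ) * P.G.Rb (P.num q) ^ 2) ≤
      P.G.er (P.num q) a := by
  unfold Gd.er
  have := P.card_inn_le q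
  have := P.G.Rb_nonneg (P.num q)
  gcongr

theorem half' (q : P.Blk) {a : ℝ} (ha : 0 < a) (hsm : P.G.SmE (P.num q) a) :
    a * ((P.sys.inn q).card : ℝ) * P.G.Rb (P.num q) ≤ 1 / 2 := by
  refine le_trans ?_ hsm.half
  have := P.card_inn_le q
  have := P.G.Rb_nonneg (P.num q)
  gcongr

/-- the coupling, sum over the port sites -/
theorem phc_sum (hS : WO.Good P.sys P.A) (q : P.Blk) {V : ι → ℝ} (hb : P.sys.comp q V) {a : ℝ}
    (ha : 0 < a) (hsm : P.G.SmE (P.num q) a) :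
    ∑ l ∈ P.sys.L q, ‖EC.phc P.A (P.sys.inn q) (P.sys.w q)
      (fun x => (V x : ℂ) - (a : ℂ) * Complex.I) l‖ ^ 2 ≤
      2 * P.sys.gg P.A q V * P.sys.lw (P.sys.cls q) := by
  refine EC.phc_le (R := P.G.Rb (P.num q)) (α := P.G.al) hS hb ha (fun x y => P.RS_le hb x y)
    (P.half' q ha hsm) P.row ?_
  refine le_trans ?_ (hsm.ph.trans (P.sum_ph_ge hb))
  have h1 := P.card_L_le q
  have h0 := P.G.nQ_nonneg (P.num q)
  have h2 := P.er_ge q ha
  have h3 : 0 ≤ P.G.al ^ 2 * (2 * a * ((P.sys.inn q).card : ℝ) * P.G.Rb (P.num q) ^ 2) := by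
    positivity
  gcongr

/-- the coupling, one port site -/
theorem phc_one (hS : WO.Good P.sys P.A) (q : P.Blk) {V : ι → ℝ} (hb : P.sys.comp q V) {a : ℝ}
    (ha : 0 < a) (hsm : P.G.SmE (P.num q) a) {l : ι} (hl : l ∈ P.sys.L q) :
    ‖EC.phc P.A (P.sys.inn q) (P.sys.w q) (fun x => (V x : ℂ) - (a : ℂ) * Complex.I) l‖ ^ 2 ≤
      P.sys.gg P.A q V * P.sys.lw (P.sys.cls q) := by
  refine EC.phc_one_le (R := P.G.Rb (P.num q)) (α := P.G.al) hS hb ha (fun x y => P.RS_le hb x y)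
    (P.half' q ha hsm) P.row ?_ hl
  refine le_trans ?_ (hsm.ph.trans (P.sum_ph_ge hb))
  have h2 := P.er_ge q ha
  have h3 : 0 ≤ P.G.al ^ 2 * (2 * a * ((P.sys.inn q).card : ℝ) * P.G.Rb (P.num q) ^ 2) := by
    positivity
  have h4 := P.G.nQ_ge49 (P.one_le_num q)
  have h5 : (6 : ℝ) ≤ P.G.nQ (P.num q) := by linarith
  gcongr

/-- the self energy at background `a` -/
theorem zec_le (hS : WO.Good P.sys P.A) (q : P.Blk) {V : ι → ℝ} (hb : P.sys.comp q V) {a : ℝ}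
    (ha : 0 < a) (hsm : P.G.SmE (P.num q) a) :
    ‖EC.zec P.A (P.sys.inn q) (P.sys.w q) (fun x => (V x : ℂ) - (a : ℂ) * Complex.I) -
      (P.sys.ze P.A q V : ℂ)‖ + a ≤ P.sys.gg P.A q V / 8 := by
  have h1 := EC.zec_sub_le (R := P.G.Rb (P.num q)) (α := P.G.al) hS hb ha
    (fun x y => P.RS_le hb x y) (P.half' q ha hsm) P.row
  have h2 := P.er_ge q ha
  have h3 := hsm.ze
  have h4 : P.G.gl (P.num q) ≤ P.sys.gg P.A q V := P.gg_ge hb
  have h5 : ‖EC.zec P.A (P.sys.inn q) (P.sys.w q) (fun x => (V x : ℂ) - (a : ℂ) * Complex.I) -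
      (P.sys.ze P.A q V : ℂ)‖ ≤ P.G.er (P.num q) a := h1.trans h2
  linarith

/-- the hypotheses of section 5 -/
theorem ehyp (hS : WO.Good P.sys P.A) (m : ℕ) {a : ℝ} (ha : 0 < a)
    (hsm : P.G.SmE (P.N0 + m) a) :
    EC.EHyp P.sys P.A P.xi m a (P.G.nQ (P.N0 + m)) where
  sepw := fun q _ => P.sepw' q
  phc := by
    intro q V hq hb
    have hn : P.num q = P.N0 + m := by
      unfold num
      have : P.cls q = m := hq
      rw [this]
    have h1 := P.phc_sum hS q hb ha (by rw [hn]; exact hsm)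
    rw [hq] at h1
    exact h1
  diam := by
    intro q hq x hx
    have hn : P.num q = P.N0 + m := by
      unfold num
      have : P.cls q = m := hq
      rw [this]
    rw [← hn]
    exact P.diam' q hx
  dm_nonneg := P.G.nQ_nonneg _

end Par

end Pool.Agent.Lib.MP_562b47_mp.BR
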