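import Pool.Agent.Lib.MP_562b47_mp.BR.Start

/-!
MP_562b47: numerical tools (everything of the form `A exp (A N ^ k)`, `k < 12`, is beaten by
`exp (- N ^ 12)`), and the smallness of the backgrounds needed in START.
-/

open Finset

namespace Pool.Agent.Lib.MP_562b47_mp.BR

/-- `A exp (A N^k) exp (-b N^l) ≤ ε` for `N` large, `k < l` -/
theorem exp_beats (A b : ℝ) (hb : 0 < b) {k l : ℕ} (hkl : k < l) {ε : ℝ} (hε : 0 < ε) :
    ∃ N1 : ℕ, 1 ≤ N1 ∧ ∀ N : ℕ, N1 ≤ N →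
      A * Real.exp (A * (N : ℝ) ^ k) * Real.exp (-(b * (N : ℝ) ^ l)) ≤ ε := by
  obtain ⟨M, hM⟩ := exists_nat_ge ((|A| + |Real.log (ε / (|A| + 1))|) / b)
  refine ⟨max M 1, le_max_right _ _, fun N hN => ?_⟩
  have hN1 : (1 : ℝ) ≤ N := by exact_mod_cast (le_max_right M 1).trans hN
  have hNM : (|A| + |Real.log (ε / (|A| + 1))|) / b ≤ N :=
    hM.trans (by exact_mod_cast (le_max_left M 1).trans hN)
  rw [div_le_iff₀ hb] at hNM
  have hk : (1 : ℝ) ≤ (N : ℝ) ^ k := one_le_pow₀ hN1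
  have hkk : (N : ℝ) ^ k * N ≤ (N : ℝ) ^ l := by
    rw [← pow_succ]
    exact pow_le_pow_right₀ hN1 hkl
  have h1 : A * (N : ℝ) ^ k ≤ |A| * (N : ℝ) ^ k :=
    mul_le_mul_of_nonneg_right (le_abs_self A) (by positivity)
  have hA0 : 0 < |A| + 1 := by positivity
  have hε1 : 0 < ε / (|A| + 1) := by positivity
  set Lg := Real.log (ε / (|A| + 1)) with hLg
  have h2 : A * (N : ℝ) ^ k - b * (N : ℝ) ^ l ≤ Lg := by
    have e1 : b * ((N : ℝ) ^ k * N) ≤ b * (N : ℝ) ^ l := mul_le_mul_of_nonneg_left hkk hb.le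
    have e2 : (N : ℝ) ^ k * (|A| + |Lg|) ≤ (N : ℝ) ^ k * (N * b) :=
      mul_le_mul_of_nonneg_left hNM (by positivity)
    have e3 : |Lg| ≤ (N : ℝ) ^ k * |Lg| := by
      have := abs_nonneg Lg
      nlinarith
    have e4 := neg_abs_le Lg
    nlinarith
  have h3 : Real.exp (A * (N : ℝ) ^ k) * Real.exp (-(b * (N : ℝ) ^ l)) ≤ ε / (|A| + 1) := by
    rw [← Real.exp_add, ← Real.exp_log hε1]
    apply Real.exp_le_exp.mpr
    linarith
  calc A * Real.exp (A * (N : ℝ) ^ k) * Real.exp (-(b * (N : ℝ) ^ l))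
      = A * (Real.exp (A * (N : ℝ) ^ k) * Real.exp (-(b * (N : ℝ) ^ l))) := by ring
    _ ≤ |A| * (Real.exp (A * (N : ℝ) ^ k) * Real.exp (-(b * (N : ℝ) ^ l))) :=
        mul_le_mul_of_nonneg_right (le_abs_self A) (by positivity)
    _ ≤ |A| * (ε / (|A| + 1)) := by gcongr
    _ ≤ ε := by
        rw [← mul_div_assoc, div_le_iff₀ hA0]
        nlinarith [abs_nonneg A]

/-- the backgrounds are small enough for START -/
theorem Gd.exists_et {c : ℝ} (G : Gd c) : ∃ N1 : ℕ, 1 ≤ N1 ∧ ∀ N : ℕ, N1 ≤ N →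
    Real.exp (-((N : ℝ) ^ 12)) * G.nQ N * G.Rb N ≤ 1 / 2 := by
  have hb : (3 : ℝ) ≤ G.b := by exact_mod_cast G.hb
  set A : ℝ := (2 * (G.b : ℝ) + 1) ^ 2 + 2 + G.C with hA
  obtain ⟨N1, h1, h2⟩ := exp_beats A 1 one_pos (k := 3) (l := 12) (by norm_num)
    (ε := 1 / 2) (by norm_num)
  refine ⟨N1, h1, fun N hN => le_trans ?_ (h2 N hN)⟩
  have hN1 : (1 : ℝ) ≤ N := by exact_mod_cast h1.trans hN
  have hC := G.C_pos
  have e1 : G.nQ N ≤ (2 * (G.b : ℝ) + 1) ^ 2 * Real.exp (2 * N) := by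
    unfold Gd.nQ
    have hexpN : (N : ℝ) ≤ Real.exp N := by linarith [Real.add_one_le_exp (N : ℝ)]
    have e1 : 2 * (G.b : ℝ) * N + 1 ≤ (2 * (G.b : ℝ) + 1) * Real.exp N := by
      calc 2 * (G.b : ℝ) * N + 1 ≤ (2 * (G.b : ℝ) + 1) * N := by nlinarith
        _ ≤ (2 * (G.b : ℝ) + 1) * Real.exp N := by gcongr
    have e2 : Real.exp (2 * (N : ℝ)) = Real.exp N ^ 2 := by
      rw [← Real.exp_nat_mul]; norm_num
    rw [e2, ← mul_pow]
    have e3 : 0 ≤ 2 * (G.b : ℝ) * N + 1 := by positivity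
    gcongr
  have e2 : Real.exp (2 * N) * G.Rb N ≤ Real.exp (A * (N : ℝ) ^ 3) := by
    unfold Gd.Rb
    rw [← Real.exp_add]
    apply Real.exp_le_exp.mpr
    have p0 : (N : ℝ) ≤ (N : ℝ) ^ 3 := by nlinarith [sq_nonneg (N : ℝ)]
    have p1 : A * (N : ℝ) ^ 3 = (2 * (G.b : ℝ) + 1) ^ 2 * (N : ℝ) ^ 3 + 2 * (N : ℝ) ^ 3 +
        G.C * (N : ℝ) ^ 3 := by rw [hA]; ring
    have p2 : 0 ≤ (2 * (G.b : ℝ) + 1) ^ 2 * (N : ℝ) ^ 3 := by positivity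
    linarith
  have e3 : (2 * (G.b : ℝ) + 1) ^ 2 ≤ A := by rw [hA]; linarith
  have e4 : 0 ≤ (2 * (G.b : ℝ) + 1) ^ 2 := by positivity
  have e5 := G.Rb_nonneg N
  calc Real.exp (-((N : ℝ) ^ 12)) * G.nQ N * G.Rb N
      ≤ Real.exp (-((N : ℝ) ^ 12)) * ((2 * (G.b : ℝ) + 1) ^ 2 * Real.exp (2 * N)) * G.Rb N := by
        gcongr
    _ = (2 * (G.b : ℝ) + 1) ^ 2 * (Real.exp (2 * N) * G.Rb N) * Real.exp (-((N : ℝ) ^ 12)) := by
        ring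
    _ ≤ A * Real.exp (A * (N : ℝ) ^ 3) * Real.exp (-(1 * (N : ℝ) ^ 12)) := by
        rw [one_mul]
        gcongr

end Pool.Agent.Lib.MP_562b47_mp.BR
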