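import Pool.Agent.Lib.MP_562b47_mp.BR.Geo
import Pool.Agent.Lib.MP_562b47_mp.WO.Meas

/-!
MP_562b47, bridge: the properties of the instance used by Lemma H' and by the assembly:
(g1)-(g4), free intervals, existence of blocks.
-/

open Finset Matrix

set_option linter.unusedSectionVars false

namespace Pool.Agent.Lib.MP_562b47_mp.BR

open Pool.Agent.Lib.MP_562b47_mp.BG Pool.Agent.Lib.MP_562b47_mp.WO Pool.Agent.Lib.MP_562b47_mp

namespace Par

variable {c : ℝ} {ι : Type*} [Fintype ι] [DecidableEq ι] (P : Par c ι)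

/-- there is a block of every class centred at every site where it fits -/
theorem exists_blk {j : ℕ} (hj : j ≤ P.M) (s : ι)
    (h : ∀ x, rel (P.pos s) x ∈ bq (P.G.b * ((P.N0 + j : ℕ) : ℤ)) → x ∈ Set.range P.pos) :
    ∃ q : P.Blk, P.cls q = j ∧ P.ctr q = s :=
  ⟨⟨(⟨j, by omega⟩, s), h⟩, rfl, rfl⟩

theorem blk_ext {q q' : P.Blk} (h1 : P.cls q = P.cls q') (h2 : P.ctr q = P.ctr q') : q = q' :=
  Subtype.ext (Prod.ext (Fin.ext h1) h2)

theorem rad_eq {q q' : P.Blk} (h : P.rad q = P.rad q') : P.cls q = P.cls q' := by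
  unfold rad num at h
  have h1 := P.G.hb
  have h2 : ((P.N0 + P.cls q : ℕ) : ℤ) = ((P.N0 + P.cls q' : ℕ) : ℤ) :=
    mul_left_cancel₀ (by omega) h
  have h3 : P.N0 + P.cls q = P.N0 + P.cls q' := by exact_mod_cast h2
  omega

theorem ne_of {q q' : P.Blk} (hne : q ≠ q') :
    ¬ (P.rad q = P.rad q' ∧ P.pos (P.ctr q) = P.pos (P.ctr q')) :=
  fun h => hne (P.blk_ext (P.rad_eq h.1) (P.inj h.2))

/-- complete except possibly at the site `s` -/
def acomp (q : P.Blk) (s : ι) (V : ι → ℝ) : Prop :=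
  ∀ x ∈ P.sys.Q q, x ≠ P.sys.w q → x ≠ s → V x ∈ Set.Icc (P.sys.lo q x) (P.sys.hi q x)

theorem acomp_of_comp {q : P.Blk} {s : ι} {V : ι → ℝ} (h : P.sys.comp q V) : P.acomp q s V :=
  fun x hx hxw _ => h x hx hxw

theorem ne_ctr {q : P.Blk} {x : ι} (h : P.co q x ∈ prt (P.rad q) ∨ P.co q x ∈ BG.inn (P.rad q)) :
    x ≠ P.sys.w q := by
  intro hx
  have h1 : P.co q x = (1, 1) := P.co_eq_one.mpr hx
  rw [h1] at h
  have := P.rad_ge q
  rcases h with h | h
  · exact (mem_prt.mp h).2 (by rw [mem_qi]; simp only; omega)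
  · exact (BR.mem_inn.mp h).1 rfl

/-- a site cannot be in its windows for two blocks if there is a conflict -/
theorem no_conf {q q' : P.Blk} {V : ι → ℝ} {x : ι}
    (h : x ∈ P.sys.Q q → x ≠ P.sys.w q → V x ∈ Set.Icc (P.sys.lo q x) (P.sys.hi q x))
    (h' : x ∈ P.sys.Q q' → x ≠ P.sys.w q' → V x ∈ Set.Icc (P.sys.lo q' x) (P.sys.hi q' x)) :
    ¬ conf (P.rad q) (P.pos (P.ctr q)) (P.rad q') (P.pos (P.ctr q')) (P.pos x) := by
  have hp : ∀ {q : P.Blk}, (x ∈ P.sys.Q q → x ≠ P.sys.w q →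
      V x ∈ Set.Icc (P.sys.lo q x) (P.sys.hi q x)) → P.co q x ∈ prt (P.rad q) →
      V x ∈ Set.Icc (jlo c P.G.r (P.num q) (ty (P.rad q) (P.co q x)))
        (jhi c P.G.r (P.num q) (ty (P.rad q) (P.co q x))) := by
    intro q h hx
    have h1 := h (P.mem_Q.mpr (mem_prt.mp hx).1) (P.ne_ctr (Or.inl hx))
    have h4 : P.sys.lo q x = P.lo q x := rfl
    have h5 : P.sys.hi q x = P.hi q x := rfl
    rw [h4, h5, P.lo_prt hx, P.hi_prt hx] at h1
    exact h1
  have hi : ∀ {q : P.Blk}, (x ∈ P.sys.Q q → x ≠ P.sys.w q →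
      V x ∈ Set.Icc (P.sys.lo q x) (P.sys.hi q x)) → P.co q x ∈ BG.inn (P.rad q) →
      V x ≤ c - 6 * P.G.r := by
    intro q h hx
    have h1 := h (P.mem_Q.mpr (inn_sub _ hx)) (P.ne_ctr (Or.inr hx))
    exact h1.2.trans (P.inn_bd hx).2
  have hlow : ∀ N t : ℕ, c - 4 * P.G.r ≤ jlo c P.G.r N t := by
    intro N t
    have h1 := jlo_ge' (c := c) P.G.r_pos N t
    have h2 := lw_pos P.G.r_pos N
    linarith
  have hr := P.G.r_pos
  intro hc
  rcases hc with ⟨h1, h2⟩ | ⟨h1, h2⟩ | ⟨h1, h2, h3⟩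
  · have e1 := (hp h h1).1
    have e2 := hi h' h2
    have e3 := hlow (P.num q) (ty (P.rad q) (P.co q x))
    linarith
  · have e1 := (hp h' h2).1
    have e2 := hi h h1
    have e3 := hlow (P.num q') (ty (P.rad q') (P.co q' x))
    linarith
  · have hn : P.num q ≠ P.num q' ∨
        ty (P.rad q) (P.co q x) ≠ ty (P.rad q') (P.co q' x) := by
      rcases h3 with h3 | h3
      · left
        intro h4
        apply h3
        unfold rad
        rw [h4]
      · exact Or.inr h3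
    exact (Set.disjoint_left.mp (J_disj (c := c) hr (P.num q) (P.num q') (ty_le _ _) (ty_le _ _)
      hn)) (hp h h1) (hp h' h2)

/-- (g4): two different blocks which are complete except possibly at `s` have at most the site `s`
in common -/
theorem g4 {q q' : P.Blk} (hne : q ≠ q') {s : ι} {V : ι → ℝ} (h : P.acomp q s V)
    (h' : P.acomp q' s V) {x : ι} (hx : x ∈ P.sys.Q q) (hx' : x ∈ P.sys.Q q') : x = s := by
  by_contra hxs
  obtain ⟨y, hy1, hy2⟩ := main_conf (P.rad_ge q) (P.rad_ge q') (P.ne_of hne) (P.mem_Q.mp hx)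
    (P.mem_Q.mp hx') (e := P.pos s) (fun h => hxs (P.inj h))
  have hyq : rel (P.pos (P.ctr q)) y ∈ bq (P.rad q) := by
    rcases hy2 with h1 | h1 | h1
    · exact (mem_prt.mp h1.1).1
    · exact inn_sub _ h1.1
    · exact (mem_prt.mp h1.1).1
  obtain ⟨i, rfl⟩ := P.ran q y hyq
  have his : i ≠ s := fun h => hy1 (by rw [h])
  exact P.no_conf (fun h1 h2 => h i h1 h2 his) (fun h1 h2 => h' i h1 h2 his) hy2

/-- (g4), the common site is a corner, in particular a port site -/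
theorem g4_corner {q q' : P.Blk} (hne : q ≠ q') {s : ι} {V : ι → ℝ} (h : P.acomp q s V)
    (h' : P.acomp q' s V) (hs : s ∈ P.sys.Q q) (hs' : s ∈ P.sys.Q q') :
    crn (P.rad q) (P.pos (P.ctr q)) (P.pos s) := by
  refine single_corner (P.rad_ge q) (P.rad_ge q') (P.mem_Q.mp hs) (P.mem_Q.mp hs') ?_
  intro y hy hy'
  obtain ⟨i, rfl⟩ := P.ran q y hy
  rw [P.g4 hne h h' (P.mem_Q.mpr hy) (P.mem_Q.mpr hy')]

theorem crn_L {q : P.Blk} {s : ι} (h : crn (P.rad q) (P.pos (P.ctr q)) (P.pos s)) :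
    s ∈ P.sys.L q := by
  rw [P.mem_L]
  obtain ⟨h1, h2⟩ := h
  have := P.rad_ge q
  have h3 : P.co q s = rel (P.pos (P.ctr q)) (P.pos s) := rfl
  rw [← h3] at h1 h2
  refine prt_of ?_ (by omega)
  rw [mem_bq]
  omega

/-- (g4): at most one almost complete block has `s` as an inner site -/
theorem g4_inner {q q' : P.Blk} {s : ι} {V : ι → ℝ} (h : P.acomp q s V)
    (h' : P.acomp q' s V) (hs : s ∈ P.sys.qi q) (hs' : s ∈ P.sys.Q q') : q = q' := by
  by_contra hne
  have hsQ : s ∈ P.sys.Q q := ((P.sys.mem_qi).mp hs).1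
  exact ((P.sys.mem_qi).mp hs).2 (P.crn_L (P.g4_corner hne h h' hsQ hs'))

/-- (g4): at most four blocks containing `s` are complete except possibly at `s` -/
theorem g4_card {s : ι} {V : ι → ℝ} {S : Finset P.Blk}
    (hS : ∀ q ∈ S, s ∈ P.sys.Q q ∧ P.acomp q s V) : S.card ≤ 4 := by
  classical
  by_cases h1 : S.card ≤ 1
  · omega
  have hex : ∀ q ∈ S, crn (P.rad q) (P.pos (P.ctr q)) (P.pos s) := by
    intro q hq
    obtain ⟨q', hq', hne⟩ := Finset.exists_mem_ne (s := S) (by omega) q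
    exact P.g4_corner (Ne.symm hne) (hS q hq).2 (hS q' hq').2 (hS q hq).1 (hS q' hq').1
  set f : P.Blk → Bool × Bool := fun q =>
    (decide (0 < (P.co q s).1), decide (0 < (P.co q s).2)) with hf
  have hinj : Set.InjOn f S := by
    intro q hq q' hq' hff
    by_contra hne
    have c1 : crn (P.rad q) (P.pos (P.ctr q)) (P.pos s) := hex q hq
    have c2 : crn (P.rad q') (P.pos (P.ctr q')) (P.pos s) := hex q' hq'
    have r1 := P.rad_ge q
    have r2 := P.rad_ge q'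
    have e1 : decide (0 < (P.co q s).1) = decide (0 < (P.co q' s).1) := congrArg Prod.fst hff
    have e2 : decide (0 < (P.co q s).2) = decide (0 < (P.co q' s).2) := congrArg Prod.snd hff
    rw [decide_eq_decide] at e1 e2
    have k1 : P.co q s = rel (P.pos (P.ctr q)) (P.pos s) := rfl
    have k2 : P.co q' s = rel (P.pos (P.ctr q')) (P.pos s) := rfl
    rw [k1, k2] at e1 e2
    obtain ⟨u1, u2⟩ := c1
    obtain ⟨v1, v2⟩ := c2
    simp only [rel] at u1 u2 v1 v2 e1 e2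
    -- the diagonal neighbour inside both blocks
    obtain ⟨t1, ht1⟩ : ∃ t1 : ℤ, (t1 = 1 ∨ t1 = -1) ∧
        -(P.rad q) ≤ (P.pos s).1 + t1 - (P.pos (P.ctr q)).1 + 1 ∧
        (P.pos s).1 + t1 - (P.pos (P.ctr q)).1 + 1 ≤ P.rad q ∧
        -(P.rad q') ≤ (P.pos s).1 + t1 - (P.pos (P.ctr q')).1 + 1 ∧
        (P.pos s).1 + t1 - (P.pos (P.ctr q')).1 + 1 ≤ P.rad q' := by
      rcases u1 with u1 | u1
      · exact ⟨-1, by omega⟩
      · exact ⟨1, by omega⟩
    obtain ⟨t2, ht2⟩ : ∃ t2 : ℤ, (t2 = 1 ∨ t2 = -1) ∧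
        -(P.rad q) ≤ (P.pos s).2 + t2 - (P.pos (P.ctr q)).2 + 1 ∧
        (P.pos s).2 + t2 - (P.pos (P.ctr q)).2 + 1 ≤ P.rad q ∧
        -(P.rad q') ≤ (P.pos s).2 + t2 - (P.pos (P.ctr q')).2 + 1 ∧
        (P.pos s).2 + t2 - (P.pos (P.ctr q')).2 + 1 ≤ P.rad q' := by
      rcases u2 with u2 | u2
      · exact ⟨-1, by omega⟩
      · exact ⟨1, by omega⟩
    have hb1 : rel (P.pos (P.ctr q)) ((P.pos s).1 + t1, (P.pos s).2 + t2) ∈ bq (P.rad q) := by
      rw [mem_bq]; simp only [rel]; omega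
    have hb2 : rel (P.pos (P.ctr q')) ((P.pos s).1 + t1, (P.pos s).2 + t2) ∈ bq (P.rad q') := by
      rw [mem_bq]; simp only [rel]; omega
    obtain ⟨i, hi⟩ := P.ran q _ hb1
    rw [← hi] at hb1 hb2
    have his := P.g4 hne (hS q hq).2 (hS q' hq').2 (P.mem_Q.mpr hb1) (P.mem_Q.mpr hb2)
    rw [his] at hi
    have := congrArg Prod.fst hi
    simp only at this
    omega
  calc S.card ≤ (Finset.univ : Finset (Bool × Bool)).card :=
        Finset.card_le_card_of_injOn f (fun _ _ => Finset.mem_coe.mpr (Finset.mem_univ _)) hinj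
    _ = 4 := by decide

/-- (g1): if the centre of `q` is in the block `q'`, the two blocks share another site -/
theorem g1 {q q' : P.Blk} (h : P.sys.w q ∈ P.sys.Q q') :
    ∃ x, x ≠ P.sys.w q ∧ x ∈ P.sys.Q q ∧ x ∈ P.sys.Q q' := by
  have h0 : P.sys.w q = P.ctr q := rfl
  rw [h0] at h ⊢
  have r1 := P.rad_ge q
  have r2 := P.rad_ge q'
  have h1 := mem_bq.mp (P.mem_Q.mp h)
  have h2 : P.co q' (P.ctr q) = rel (P.pos (P.ctr q')) (P.pos (P.ctr q)) := rfl
  rw [h2] at h1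
  simp only [rel] at h1
  obtain ⟨t, ht⟩ : ∃ t : ℤ, (t = 1 ∨ t = -1) ∧
      -(P.rad q') ≤ (P.pos (P.ctr q)).1 + t - (P.pos (P.ctr q')).1 + 1 ∧
      (P.pos (P.ctr q)).1 + t - (P.pos (P.ctr q')).1 + 1 ≤ P.rad q' := by
    by_cases h3 : (P.pos (P.ctr q)).1 - (P.pos (P.ctr q')).1 + 1 = P.rad q'
    · exact ⟨-1, by omega⟩
    · exact ⟨1, by omega⟩
  have hb : rel (P.pos (P.ctr q)) ((P.pos (P.ctr q)).1 + t, (P.pos (P.ctr q)).2) ∈
      bq (P.rad q) := by
    rw [mem_bq]; simp only [rel]; omega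
  have hb' : rel (P.pos (P.ctr q')) ((P.pos (P.ctr q)).1 + t, (P.pos (P.ctr q)).2) ∈
      bq (P.rad q') := by
    rw [mem_bq]; simp only [rel]; omega
  obtain ⟨i, hi⟩ := P.ran q _ hb
  rw [← hi] at hb hb'
  refine ⟨i, ?_, P.mem_Q.mpr hb, P.mem_Q.mpr hb'⟩
  rintro rfl
  have := congrArg Prod.fst hi
  simp only at this
  omega

/-- (g2): all sites at distance at most two from the centre exist and are inner sites -/
theorem g2 {q : P.Blk} (hN : 2 ≤ P.N0) {y : ℤ × ℤ}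
    (h : |y.1 - (P.pos (P.ctr q)).1| + |y.2 - (P.pos (P.ctr q)).2| ≤ 2) :
    ∃ x, P.pos x = y ∧ x ∈ P.sys.qi q := by
  have r1 : 6 ≤ P.rad q := by
    have h1 : (2 : ℤ) ≤ P.num q := by exact_mod_cast hN.trans (P.num_ge q)
    have h2 := P.G.hb
    unfold rad
    nlinarith
  have a1 := abs_nonneg (y.1 - (P.pos (P.ctr q)).1)
  have a2 := abs_nonneg (y.2 - (P.pos (P.ctr q)).2)
  have b1 := abs_le.mp (show |y.1 - (P.pos (P.ctr q)).1| ≤ 2 by omega)
  have b2 := abs_le.mp (show |y.2 - (P.pos (P.ctr q)).2| ≤ 2 by omega)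
  have hq : rel (P.pos (P.ctr q)) y ∈ BG.qi (P.rad q) := by
    rw [BR.mem_qi]; simp only [rel]; omega
  have hb : rel (P.pos (P.ctr q)) y ∈ bq (P.rad q) := by
    rw [mem_bq]; simp only [rel]; omega
  obtain ⟨i, rfl⟩ := P.ran q _ hb
  exact ⟨i, rfl, P.mem_qi'.mpr hq⟩

/-- a block of larger class which meets `q` contains a corner of `q` -/
theorem meets_corner {q q' : P.Blk} (hc : P.cls q ≤ P.cls q') {x : ι} (hx : x ∈ P.sys.Q q)
    (hx' : x ∈ P.sys.Q q') : ∃ i, crn (P.rad q) (P.pos (P.ctr q)) (P.pos i) ∧ i ∈ P.sys.Q q' := by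
  have hmm : P.rad q ≤ P.rad q' := by
    have h1 : (P.num q : ℤ) ≤ P.num q' := by
      unfold num
      push_cast
      have : (P.cls q : ℤ) ≤ P.cls q' := by exact_mod_cast hc
      linarith
    have h2 := P.G.hb
    unfold rad
    nlinarith
  have r1 := P.rad_ge q
  obtain ⟨⟨a1, a2⟩, a3, a4⟩ := mem_bq.mp (P.mem_Q.mp hx)
  obtain ⟨⟨b1, b2⟩, b3, b4⟩ := mem_bq.mp (P.mem_Q.mp hx')
  simp only [co, rel] at a1 a2 a3 a4 b1 b2 b3 b4
  obtain ⟨y1, h1, h2, h3⟩ := endpoint (m := P.rad q) (m' := P.rad q')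
    (o := (P.pos (P.ctr q)).1 - 1) (o' := (P.pos (P.ctr q')).1 - 1)
    (x := (P.pos x).1) hmm (by omega) (by omega) (by omega) (by omega)
  obtain ⟨y2, g1, g2, g3⟩ := endpoint (m := P.rad q) (m' := P.rad q')
    (o := (P.pos (P.ctr q)).2 - 1) (o' := (P.pos (P.ctr q')).2 - 1)
    (x := (P.pos x).2) hmm (by omega) (by omega) (by omega) (by omega)
  have hb : rel (P.pos (P.ctr q)) (y1, y2) ∈ bq (P.rad q) := by
    rw [mem_bq]; simp only [rel]; omega
  have hb' : rel (P.pos (P.ctr q')) (y1, y2) ∈ bq (P.rad q') := by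
    rw [mem_bq]; simp only [rel]; omega
  obtain ⟨i, hi⟩ := P.ran q _ hb
  rw [← hi] at hb'
  refine ⟨i, ?_, P.mem_Q.mpr hb'⟩
  rw [hi]
  unfold crn rel
  simp only
  omega

/-- (g3): a pairwise disjoint family of blocks of class at least the one of `q` which meet `q` has
at most four members -/
theorem g3 {q : P.Blk} {S : Finset P.Blk} (hc : ∀ q' ∈ S, P.cls q ≤ P.cls q')
    (hm : ∀ q' ∈ S, ¬ Disjoint (P.sys.Q q) (P.sys.Q q'))
    (hd : ∀ q' ∈ S, ∀ q'' ∈ S, q' ≠ q'' → Disjoint (P.sys.Q q') (P.sys.Q q'')) :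
    S.card ≤ 4 := by
  classical
  have hex : ∀ q' ∈ S, ∃ i, crn (P.rad q) (P.pos (P.ctr q)) (P.pos i) ∧ i ∈ P.sys.Q q' := by
    intro q' hq'
    obtain ⟨x, hx, hx'⟩ := Finset.not_disjoint_iff.mp (hm q' hq')
    exact P.meets_corner (hc q' hq') hx hx'
  have : Nonempty ι := ⟨P.ctr q⟩
  choose! f hf1 hf2 using hex
  set g : P.Blk → Bool × Bool := fun q' =>
    (decide (0 < (P.co q (f q')).1), decide (0 < (P.co q (f q')).2)) with hg
  have hinj : Set.InjOn g S := by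
    intro q' hq' q'' hq'' hgg
    by_contra hne
    have c1 := hf1 q' hq'
    have c2 := hf1 q'' hq''
    have r1 := P.rad_ge q
    have e1 : decide (0 < (P.co q (f q')).1) = decide (0 < (P.co q (f q'')).1) :=
      congrArg Prod.fst hgg
    have e2 : decide (0 < (P.co q (f q')).2) = decide (0 < (P.co q (f q'')).2) :=
      congrArg Prod.snd hgg
    rw [decide_eq_decide] at e1 e2
    have k1 : P.co q (f q') = rel (P.pos (P.ctr q)) (P.pos (f q')) := rfl
    have k2 : P.co q (f q'') = rel (P.pos (P.ctr q)) (P.pos (f q'')) := rfl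
    rw [k1, k2] at e1 e2
    obtain ⟨u1, u2⟩ := c1
    obtain ⟨v1, v2⟩ := c2
    simp only [rel] at u1 u2 v1 v2 e1 e2
    have heq : f q' = f q'' := P.inj (Prod.ext (by omega) (by omega))
    have hd1 := hd q' hq' q'' hq'' hne
    have m1 := hf2 q' hq'
    have m2 := hf2 q'' hq''
    rw [← heq] at m2
    exact (Finset.disjoint_left.mp hd1) m1 m2
  calc S.card ≤ (Finset.univ : Finset (Bool × Bool)).card :=
        Finset.card_le_card_of_injOn g (fun _ _ => Finset.mem_coe.mpr (Finset.mem_univ _)) hinj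
    _ = 4 := by decide

/-- the interval `J0`, free of all windows -/
noncomputable def j0 : ℝ := c - 11 / 2 * P.G.r

/-- the right endpoint of `J0` -/
noncomputable def j1 : ℝ := c - 9 / 2 * P.G.r

theorem j0_ge : -c ≤ P.j0 := by
  unfold j0
  linarith [P.c_ge, P.c_pos, P.G.r_pos, P.G.ρ_pos]

theorem j1_le : P.j1 ≤ c := by
  unfold j1
  linarith [P.G.r_pos]

theorem j1_sub : P.j1 - P.j0 = P.G.r := by
  unfold j0 j1; ring

/-- the sites of a block are the centre, the port sites and the inner sites -/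
theorem Q_cases {q : P.Blk} {x : ι} (hx : x ∈ P.sys.Q q) (hw : x ≠ P.sys.w q) :
    P.co q x ∈ prt (P.rad q) ∨ P.co q x ∈ BG.inn (P.rad q) := by
  rcases bq_cases (P.mem_Q.mp hx) with h | h | h
  · exact Or.inl h
  · exact absurd (P.co_eq_one.mp h) hw
  · exact Or.inr h

/-- `J0` is disjoint from all windows -/
theorem J0_free {q : P.Blk} {x : ι} (hx : x ∈ P.sys.Q q) (hw : x ≠ P.sys.w q) :
    Disjoint (Set.Icc P.j0 P.j1) (Set.Icc (P.sys.lo q x) (P.sys.hi q x)) := by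
  have hr := P.G.r_pos
  have h4 : P.sys.lo q x = P.lo q x := rfl
  have h5 : P.sys.hi q x = P.hi q x := rfl
  rw [h4, h5]
  rcases P.Q_cases hx hw with h | h
  · have h1 := (P.prt_bd h).1
    have h2 := lw_pos hr (P.num q)
    exact Icc_disj (by unfold j1; linarith)
  · have h1 := (P.inn_bd h).2
    exact (Icc_disj (by unfold j0; linarith)).symm

/-- the intervals `[-c, -c + r)` and `(c - r, c]` are free of windows -/
theorem ends_free {q : P.Blk} {x : ι} (hx : x ∈ P.sys.Q q) (hw : x ≠ P.sys.w q) :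
    -c + P.G.r ≤ P.sys.lo q x ∧ P.sys.hi q x ≤ c - P.G.r := by
  have hr := P.G.r_pos
  have hc := P.c_ge
  have hρ := P.G.ρ_pos
  have h4 : P.sys.lo q x = P.lo q x := rfl
  have h5 : P.sys.hi q x = P.hi q x := rfl
  rw [h4, h5]
  rcases P.Q_cases hx hw with h | h
  · have h1 := P.prt_bd h
    have h2 := lw_pos hr (P.num q)
    constructor <;> linarith
  · have h1 := P.inn_bd h
    constructor <;> linarith

/-- the hidden law does not charge the ends of the interval -/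
theorem hh_zero {q : P.Blk} {V : ι → ℝ} (h : P.sys.comp q V)
    (hg : P.sys.gg P.A q V ≤ P.G.r)
    (hV : V (P.sys.w q) ≤ -c + P.G.r ∨ c - P.G.r ≤ V (P.sys.w q)) : P.sys.hh P.A q V = 0 := by
  unfold WO.Sys.hh
  have hz := P.ze_bd h
  have h1 := abs_nonneg (P.sys.ze P.A q V)
  have h2 : |P.sys.ze P.A q V| ≤ c - 6 * P.G.r := by linarith
  rw [abs_le] at h2
  have h3 : 5 * P.G.r ≤ |V (P.sys.w q) - P.sys.ze P.A q V| := by
    rcases hV with hV | hV
    · rw [abs_of_nonpos (by linarith [P.G.r_pos])]; linarith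
    · rw [abs_of_nonneg (by linarith [P.G.r_pos])]; linarith
  have h6 : P.sys.r = P.G.r := rfl
  rw [h6, SL.ff_eq_zero (P.gg_pos h) P.G.r_pos hg h3, mul_zero]

/-- lengths of the windows -/
theorem win_prt {q : P.Blk} {x : ι} (hx : P.co q x ∈ prt (P.rad q)) :
    P.sys.hi q x - P.sys.lo q x = lw P.G.r (P.num q) := by
  have h4 : P.sys.lo q x = P.lo q x := rfl
  have h5 : P.sys.hi q x = P.hi q x := rfl
  rw [h4, h5, P.lo_prt hx, P.hi_prt hx, jhi_sub]

theorem win_inn {q : P.Blk} {x : ι} (hx : P.co q x ∈ BG.inn (P.rad q)) :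
    P.sys.hi q x - P.sys.lo q x = 2 * Real.exp (-(P.Cw * (P.num q : ℝ) ^ 3)) := by
  have h4 : P.sys.lo q x = P.lo q x := rfl
  have h5 : P.sys.hi q x = P.hi q x := rfl
  rw [h4, h5, P.lo_inn hx, P.hi_inn hx]
  unfold de
  ring

end Par

end Pool.Agent.Lib.MP_562b47_mp.BR
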