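import Pool.Agent.Lib.MP_562b47_mp.BR.Emb

/-!
MP_562b47, bridge: the instance of `WO.Sys` given by the gadgets of `BG.gadget`.
-/

open Finset Matrix

namespace Pool.Agent.Lib.MP_562b47_mp.BR

open Pool.Agent.Lib.MP_562b47_mp.BG Pool.Agent.Lib.MP_562b47_mp.WO

/-- the constants and the potentials of the gadget: chosen before the energy, the size of the box
and the width of the windows -/
structure Gd (c : ℝ) where
  b : ℤ
  z : ℝ
  v : ℝ
  ρ : ℝ
  r : ℝ
  C : ℝ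
  Vs : ℕ → ℤ × ℤ → ℝ
  hb : 3 ≤ b
  z_pos : 0 < z
  z_lt : z < 1
  ρ_pos : 0 < ρ
  r_pos : 0 < r
  C_ge : 1 ≤ C
  C_ρ : Real.exp (-C) ≤ ρ / 2
  Vs_near : ∀ N x, |Vs N x - v| ≤ ρ / 2
  gad : ∀ N : ℕ, 1 ≤ N → ∀ W : ℤ × ℤ → ℝ,
    (∀ x ∈ BG.inn (b * N), |W x - Vs N x| ≤ Real.exp (-(C * (N : ℝ) ^ 3))) →
      (KM (b * N) W).det ≠ 0 ∧
      (∀ x y, |KI (b * N) W x y| ≤ Real.exp (C * (N : ℝ) ^ 3)) ∧
      |ze0 (b * N) W - v| ≤ ρ ∧
      z ^ (2 * N) / C ≤ ∑ x ∈ prt (b * N), ph0 (b * N) W x ^ 2 ∧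
      ∑ x ∈ prt (b * N), ph0 (b * N) W x ^ 2 ≤ C * N * z ^ (2 * N)

/-- the energies for which the gadget can be used -/
def Gd.Adm {c : ℝ} (G : Gd c) (E : ℝ) : Prop := |E - 4 + G.v| + G.ρ + 6 * G.r ≤ c

/-- every energy in the interior of the spectrum has a gadget which works in a neighbourhood -/
theorem exists_Gd {c Es : ℝ} (hc : 0 < c) (h1 : -c < Es) (h2 : Es < 8 + c) :
    ∃ (G : Gd c) (δ0 : ℝ), 0 < δ0 ∧ ∀ E : ℝ, |E - Es| < δ0 → G.Adm E := by
  obtain ⟨b, z, v, ρ, r, δ0, C, hb, hz, hz1, hρ, hr, hδ, hC, hE, hg⟩ := gadget hc h1 h2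
  choose Vs hVs hW using fun N : ℕ => hg (N + 1) (by omega)
  set C' : ℝ := max C (-Real.log (ρ / 2)) with hC'
  have hCC : C ≤ C' := le_max_left _ _
  have hC'ρ : Real.exp (-C') ≤ ρ / 2 := by
    have h3 : -C' ≤ Real.log (ρ / 2) := by
      have := le_max_right C (-Real.log (ρ / 2))
      linarith
    calc Real.exp (-C') ≤ Real.exp (Real.log (ρ / 2)) := Real.exp_le_exp.mpr h3
      _ = ρ / 2 := Real.exp_log (by linarith)
  refine ⟨⟨b, z, v, ρ, r, C', fun N => Vs (N - 1), hb, hz, hz1, hρ, hr, hC.trans hCC, hC'ρ,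
    fun N x => hVs (N - 1) x, ?_⟩, δ0, hδ, hE⟩
  intro N hN W hWN
  obtain ⟨k, rfl⟩ : ∃ k, N = k + 1 := ⟨N - 1, by omega⟩
  have h3 := hW k W
  have hN0 : (0 : ℝ) ≤ ((k + 1 : ℕ) : ℝ) ^ 3 := by positivity
  have hCN : C * ((k + 1 : ℕ) : ℝ) ^ 3 ≤ C' * ((k + 1 : ℕ) : ℝ) ^ 3 :=
    mul_le_mul_of_nonneg_right hCC hN0
  obtain ⟨g1, g2, g3, g4, g5⟩ := h3 (fun x hx => (hWN x hx).trans
    (Real.exp_le_exp.mpr (by linarith)))
  have hzN : 0 < z ^ (2 * (k + 1)) := by positivity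
  refine ⟨g1, fun x y => (g2 x y).trans (Real.exp_le_exp.mpr hCN), g3, le_trans ?_ g4,
    g5.trans ?_⟩
  · exact div_le_div_of_nonneg_left hzN.le (by linarith) hCC
  · have : C * ((k + 1 : ℕ) : ℝ) ≤ C' * ((k + 1 : ℕ) : ℝ) :=
      mul_le_mul_of_nonneg_right hCC (Nat.cast_nonneg _)
    exact mul_le_mul_of_nonneg_right this hzN.le

/-- all parameters of the instance -/
structure Par (c : ℝ) (ι : Type*) where
  G : Gd c
  E : ℝ
  adm : G.Adm E
  pos : ι → ℤ × ℤ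
  inj : Function.Injective pos
  N0 : ℕ
  M : ℕ
  one_le : 1 ≤ N0
  Cw : ℝ
  Cw_ge : G.C ≤ Cw
  et : ℕ → ℝ
  et_pos : ∀ m, 0 < et m
  et_le : ∀ m, et m ≤ 1

variable {c : ℝ} {ι : Type*}

/-- the blocks: class `0 ≤ j ≤ M` (radius `b (N0 + j)`) and centre, such that the block is
contained in the box -/
def Par.Blk (P : Par c ι) : Type _ :=
  {q : Fin (P.M + 1) × ι //
    ∀ x, rel (P.pos q.2) x ∈ bq (P.G.b * ((P.N0 + (q.1 : ℕ) : ℕ) : ℤ)) → x ∈ Set.range P.pos}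

noncomputable instance [Fintype ι] (P : Par c ι) : Fintype P.Blk := by
  classical
  unfold Par.Blk
  infer_instance

instance [DecidableEq ι] (P : Par c ι) : DecidableEq P.Blk := by
  unfold Par.Blk
  infer_instance

namespace Par

/-- the class -/
def cls (P : Par c ι) (q : P.Blk) : ℕ := (q.1.1 : ℕ)

/-- the size parameter `N = N0 + class` -/
def num (P : Par c ι) (q : P.Blk) : ℕ := P.N0 + P.cls q

/-- the centre -/
def ctr (P : Par c ι) (q : P.Blk) : ι := q.1.2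

/-- the radius -/
def rad (P : Par c ι) (q : P.Blk) : ℤ := P.G.b * ((P.num q : ℕ) : ℤ)

/-- relative coordinates of a site -/
def co (P : Par c ι) (q : P.Blk) (x : ι) : ℤ × ℤ := rel (P.pos (P.ctr q)) (P.pos x)

theorem num_ge (P : Par c ι) (q : P.Blk) : P.N0 ≤ P.num q := Nat.le_add_right _ _

theorem one_le_num (P : Par c ι) (q : P.Blk) : 1 ≤ P.num q := P.one_le.trans (P.num_ge q)

theorem cls_le (P : Par c ι) (q : P.Blk) : P.cls q ≤ P.M := by
  have := q.1.1.2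
  unfold cls
  omega

theorem ran (P : Par c ι) (q : P.Blk) :
    ∀ x, rel (P.pos (P.ctr q)) x ∈ bq (P.rad q) → x ∈ Set.range P.pos := q.2

theorem rad_ge (P : Par c ι) (q : P.Blk) : 3 ≤ P.rad q := by
  have h1 : (1 : ℤ) ≤ P.num q := by exact_mod_cast P.one_le_num q
  have h2 := P.G.hb
  unfold rad
  nlinarith

/-- half length of the inner windows -/
noncomputable def de (P : Par c ι) (N : ℕ) : ℝ := Real.exp (-(P.Cw * (N : ℝ) ^ 3))

theorem de_pos (P : Par c ι) (N : ℕ) : 0 < P.de N := Real.exp_pos _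

theorem de_le (P : Par c ι) (N : ℕ) : P.de N ≤ Real.exp (-(P.G.C * (N : ℝ) ^ 3)) := by
  unfold de
  apply Real.exp_le_exp.mpr
  have h1 : (0 : ℝ) ≤ (N : ℝ) ^ 3 := by positivity
  nlinarith [mul_le_mul_of_nonneg_right P.Cw_ge h1]

theorem de_le_ρ (P : Par c ι) {N : ℕ} (hN : 1 ≤ N) : P.de N ≤ P.G.ρ / 2 := by
  refine (P.de_le N).trans (le_trans ?_ P.G.C_ρ)
  apply Real.exp_le_exp.mpr
  have h1 : (1 : ℝ) ≤ N := by exact_mod_cast hN
  have h2 : (1 : ℝ) ≤ (N : ℝ) ^ 3 := one_le_pow₀ h1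
  have := P.G.C_ge
  nlinarith

/-- left endpoints of the windows -/
noncomputable def lo (P : Par c ι) (q : P.Blk) (x : ι) : ℝ :=
  if P.co q x ∈ prt (P.rad q) then jlo c P.G.r (P.num q) (ty (P.rad q) (P.co q x))
  else if P.co q x ∈ BG.inn (P.rad q) then P.G.Vs (P.num q) (P.co q x) - 4 + P.E - P.de (P.num q)
  else -c

/-- right endpoints of the windows -/
noncomputable def hi (P : Par c ι) (q : P.Blk) (x : ι) : ℝ :=
  if P.co q x ∈ prt (P.rad q) then jhi c P.G.r (P.num q) (ty (P.rad q) (P.co q x))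
  else if P.co q x ∈ BG.inn (P.rad q) then P.G.Vs (P.num q) (P.co q x) - 4 + P.E + P.de (P.num q)
  else c

theorem prt_inn {m : ℤ} {x : ℤ × ℤ} (h : x ∈ BG.inn m) : x ∉ prt m := by
  intro h'
  exact (mem_prt.mp h').2 (mem_inn.mp h).2

theorem lo_prt (P : Par c ι) {q : P.Blk} {x : ι} (h : P.co q x ∈ prt (P.rad q)) :
    P.lo q x = jlo c P.G.r (P.num q) (ty (P.rad q) (P.co q x)) := if_pos h

theorem hi_prt (P : Par c ι) {q : P.Blk} {x : ι} (h : P.co q x ∈ prt (P.rad q)) :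
    P.hi q x = jhi c P.G.r (P.num q) (ty (P.rad q) (P.co q x)) := if_pos h

theorem lo_inn (P : Par c ι) {q : P.Blk} {x : ι} (h : P.co q x ∈ BG.inn (P.rad q)) :
    P.lo q x = P.G.Vs (P.num q) (P.co q x) - 4 + P.E - P.de (P.num q) := by
  unfold lo
  rw [if_neg (prt_inn h), if_pos h]

theorem hi_inn (P : Par c ι) {q : P.Blk} {x : ι} (h : P.co q x ∈ BG.inn (P.rad q)) :
    P.hi q x = P.G.Vs (P.num q) (P.co q x) - 4 + P.E + P.de (P.num q) := by
  unfold hi
  rw [if_neg (prt_inn h), if_pos h]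

/-- the inner windows are contained in `[-c + 6r, c - 6r]` -/
theorem inn_bd (P : Par c ι) {q : P.Blk} {x : ι} (h : P.co q x ∈ BG.inn (P.rad q)) :
    -c + 6 * P.G.r ≤ P.lo q x ∧ P.hi q x ≤ c - 6 * P.G.r := by
  rw [P.lo_inn h, P.hi_inn h]
  have h1 := P.G.Vs_near (P.num q) (P.co q x)
  have h2 := P.de_le_ρ (P.one_le_num q)
  have h3 := P.adm
  unfold Gd.Adm at h3
  rw [abs_le] at h1
  have h4 := abs_le.mp (le_of_eq (rfl : |P.E - 4 + P.G.v| = |P.E - 4 + P.G.v|))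
  constructor <;> linarith

theorem prt_bd (P : Par c ι) {q : P.Blk} {x : ι} (h : P.co q x ∈ prt (P.rad q)) :
    c - 4 * P.G.r ≤ P.lo q x - lw P.G.r (P.num q) ∧
      P.hi q x + lw P.G.r (P.num q) ≤ c - P.G.r := by
  rw [P.lo_prt h, P.hi_prt h]
  exact ⟨jlo_ge' P.G.r_pos _ _, jhi_le' P.G.r_pos _ (ty_le _ _)⟩

theorem c_ge (P : Par c ι) : 6 * P.G.r + P.G.ρ ≤ c := by
  have h3 := P.adm
  unfold Gd.Adm at h3
  linarith [abs_nonneg (P.E - 4 + P.G.v)]

theorem c_pos (P : Par c ι) : 0 < c := by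
  have := P.c_ge
  linarith [P.G.ρ_pos, P.G.r_pos]

theorem lo_ge (P : Par c ι) (q : P.Blk) (x : ι) : -c ≤ P.lo q x := by
  by_cases h : P.co q x ∈ prt (P.rad q)
  · have h1 := (P.prt_bd h).1
    have h2 := lw_pos P.G.r_pos (P.num q)
    linarith [P.c_ge, P.G.r_pos, P.G.ρ_pos]
  · by_cases h' : P.co q x ∈ BG.inn (P.rad q)
    · linarith [(P.inn_bd h').1, P.G.r_pos]
    · unfold lo
      rw [if_neg h, if_neg h']

theorem hi_le (P : Par c ι) (q : P.Blk) (x : ι) : P.hi q x ≤ c := by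
  by_cases h : P.co q x ∈ prt (P.rad q)
  · have h1 := (P.prt_bd h).2
    have h2 := lw_pos P.G.r_pos (P.num q)
    linarith [P.c_ge, P.G.r_pos, P.G.ρ_pos]
  · by_cases h' : P.co q x ∈ BG.inn (P.rad q)
    · linarith [(P.inn_bd h').2, P.G.r_pos]
    · unfold hi
      rw [if_neg h, if_neg h']

theorem lo_lt (P : Par c ι) (q : P.Blk) (x : ι) : P.lo q x < P.hi q x := by
  by_cases h : P.co q x ∈ prt (P.rad q)
  · rw [P.lo_prt h, P.hi_prt h]
    exact jlo_lt_jhi P.G.r_pos _ _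
  · by_cases h' : P.co q x ∈ BG.inn (P.rad q)
    · rw [P.lo_inn h', P.hi_inn h']
      linarith [P.de_pos (P.num q)]
    · unfold lo hi
      rw [if_neg h, if_neg h', if_neg h, if_neg h']
      linarith [P.c_pos]

variable [Fintype ι] [DecidableEq ι]

theorem mem_block (P : Par c ι) {q : P.Blk} {m : ℤ} {x : ι} :
    x ∈ TT P.pos (P.ctr q) (bq m) ↔ P.co q x ∈ bq m := mem_TT

/-- the instance -/
noncomputable def sys (P : Par c ι) : WO.Sys ι P.Blk where
  c := c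
  r := P.G.r
  κ := 1 / (4 * c)
  Q := fun q => TT P.pos (P.ctr q) (bq (P.rad q))
  L := fun q => TT P.pos (P.ctr q) (prt (P.rad q))
  w := P.ctr
  cls := P.cls
  lo := P.lo
  hi := P.hi
  lw := fun j => lw P.G.r (P.N0 + j)
  et := P.et
  c_pos := P.c_pos
  r_pos := P.G.r_pos
  κ_pos := by have := P.c_pos; positivity
  κ_le := by
    have := P.c_pos
    rw [mul_one_div, div_self (by positivity)]
  w_mem := by
    intro q
    rw [mem_TT, rel_self, mem_bq]
    have := P.rad_ge q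
    simp only
    omega
  w_not := by
    intro q
    rw [mem_TT, rel_self, mem_prt, mem_qi]
    have := P.rad_ge q
    simp only
    omega
  L_sub := by
    intro q x hx
    rw [mem_TT] at hx ⊢
    exact (mem_prt.mp hx).1
  lo_lt := P.lo_lt
  lo_ge := P.lo_ge
  hi_le := P.hi_le
  lw_pos := fun j => lw_pos P.G.r_pos _
  lw_eq := by
    intro q x hx
    rw [mem_TT] at hx
    rw [P.lo_prt hx, P.hi_prt hx, jhi_sub]
    rfl
  et_pos := P.et_pos
  et_le := P.et_le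
  disj := by
    intro q q' V hne h h'
    rw [Finset.disjoint_left]
    intro x hx hx'
    rw [mem_TT] at hx hx'
    have hctr : ∀ (q : P.Blk) (x : ι), P.co q x ∈ prt (P.rad q) ∨ P.co q x ∈ BG.inn (P.rad q) →
        x ≠ P.ctr q := by
      rintro q x hq rfl
      have h1 : P.co q (P.ctr q) = (1, 1) := rel_self _
      rw [h1] at hq
      have := P.rad_ge q
      rcases hq with hq | hq
      · exact (mem_prt.mp hq).2 (by rw [mem_qi]; simp only; omega)
      · exact (mem_inn.mp hq).1 rfl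
    have hsub : ∀ {m : ℤ} {y : ℤ × ℤ}, y ∈ prt m ∨ y ∈ BG.inn m → y ∈ bq m := by
      intro m y hy
      rcases hy with hy | hy
      · exact (mem_prt.mp hy).1
      · exact inn_sub m hy
    have key := disj P.pos P.G.hb (A := Set.Icc (-c + 6 * P.G.r) (c - 6 * P.G.r))
      (J := fun N t => Set.Icc (jlo c P.G.r N t) (jhi c P.G.r N t))
      (fun N t _ _ => by
        have h1 := jlo_ge' (c := c) P.G.r_pos N t
        have h2 := lw_pos P.G.r_pos N
        exact Icc_disj (by linarith [P.G.r_pos]))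
      (fun N N' t t' _ _ ht ht' hn => J_disj P.G.r_pos N N' ht ht' hn) V
      (P.one_le_num q) (P.one_le_num q') (P.ran q) (P.ran q')
      (fun x hx => by
        have h1 := h x (mem_TT.mpr (hsub (Or.inl hx))) (hctr q x (Or.inl hx))
        rw [P.lo_prt hx, P.hi_prt hx] at h1
        exact h1)
      (fun x hx => by
        have h1 := h x (mem_TT.mpr (hsub (Or.inr hx))) (hctr q x (Or.inr hx))
        have h2 := P.inn_bd hx
        exact ⟨h2.1.trans h1.1, h1.2.trans h2.2⟩)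
      (fun x hx => by
        have h1 := h' x (mem_TT.mpr (hsub (Or.inl hx))) (hctr q' x (Or.inl hx))
        rw [P.lo_prt hx, P.hi_prt hx] at h1
        exact h1)
      (fun x hx => by
        have h1 := h' x (mem_TT.mpr (hsub (Or.inr hx))) (hctr q' x (Or.inr hx))
        have h2 := P.inn_bd hx
        exact ⟨h2.1.trans h1.1, h1.2.trans h2.2⟩)
      hx hx'
    apply hne
    have e1 : q.1.1 = q'.1.1 := by
      apply Fin.ext
      have h1 : P.N0 + (q.1.1 : ℕ) = P.N0 + (q'.1.1 : ℕ) := key.1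
      omega
    have e2 : q.1.2 = q'.1.2 := P.inj key.2
    exact Subtype.ext (Prod.ext e1 e2)

end Par

end Pool.Agent.Lib.MP_562b47_mp.BR
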